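import Mathlib

set_option autoImplicit false

namespace Pool.Agent.H73F

theorem a1_red (n : ℕ) (b : Bool) (c : Fin 2) (w : List (Fin 2 × Bool)) (hw : FreeGroup.IsReduced w)
    (h : ∀ e ∈ w.head?, e.1 ≠ c) : FreeGroup.IsReduced (List.replicate n (c, b) ++ w) := by
  unfold FreeGroup.IsReduced at *
  rw [List.isChain_append]
  refine ⟨List.isChain_replicate_of_rel _ (fun _ => rfl), hw, ?_⟩
  intro x hx y hy hxy
  have h1 : x ∈ List.replicate n (c, b) := List.mem_of_getLast? hx
  have h2 := List.eq_of_mem_replicate h1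
  exfalso
  apply h y hy
  rw [← hxy, h2]

theorem a1_len (n : ℕ) (b : Bool) (c : Fin 2) (x : FreeGroup (Fin 2))
    (h : ∀ e ∈ x.toWord.head?, e.1 ≠ c) :
    (FreeGroup.mk (List.replicate n (c, b)) * x).norm = n + x.norm := by
  have h1 : FreeGroup.mk (List.replicate n (c, b)) * x =
      FreeGroup.mk (List.replicate n (c, b) ++ x.toWord) := by
    conv_lhs => rw [← FreeGroup.mk_toWord (x := x)]
    rw [FreeGroup.mul_mk]
  rw [h1, FreeGroup.norm, FreeGroup.toWord_mk,
    (a1_red n b c x.toWord FreeGroup.isReduced_toWord h).reduce_eq, List.length_append,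
    List.length_replicate]
  rfl

theorem a1_pow (n : ℕ) (c : Fin 2) :
    FreeGroup.of c ^ n = FreeGroup.mk (List.replicate n (c, true)) := by
  rw [← FreeGroup.mk_toWord (x := FreeGroup.of c ^ n), FreeGroup.toWord_of_pow]

theorem a1_pow' (n : ℕ) (c : Fin 2) :
    (FreeGroup.of c ^ n)⁻¹ = FreeGroup.mk (List.replicate n (c, false)) := by
  rw [a1_pow, FreeGroup.inv_mk]
  congr 1
  simp [FreeGroup.invRev]

/-- CHUNK A1 (S/M).  Multiplying a reduced word that does not begin with the letter `c` on the
left by a nontrivial power of `c` increases the length.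
Proof.  Write `m > 0` (the case `m < 0` is symmetric, with the letter `(c, false)`).  Then
`(FreeGroup.of c ^ m).toWord = List.replicate m (c, true)` (`FreeGroup.toWord_of_pow`), and the
concatenation `List.replicate m (c, true) ++ x.toWord` is reduced (`FreeGroup.IsReduced`, a chain
condition on adjacent letters; `FreeGroup.isReduced_toWord`, `FreeGroup.IsReduced.reduce_eq`),
because the first letter of `x.toWord` is not `c`.  So by `FreeGroup.toWord_mul` its length is
`m + x.norm`.  Alternatively: induction on `m`, the statement for `m = 1` being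
`FreeGroup.reduce.cons`, and the product `of c * x` begins with the letter `(c, true)`. -/
theorem a1_norm_lt (c : Fin 2) (x : FreeGroup (Fin 2))
    (hx : ∀ e ∈ x.toWord.head?, e.1 ≠ c) (m : ℤ) (hm : m ≠ 0) :
    x.norm < (FreeGroup.of c ^ m * x).norm := by
  rcases lt_or_gt_of_ne hm with h | h
  · obtain ⟨n, rfl⟩ : ∃ n : ℕ, m = -(n : ℤ) := ⟨(-m).toNat, by omega⟩
    rw [zpow_neg, zpow_natCast, a1_pow', a1_len n false c x hx]
    omega
  · obtain ⟨n, rfl⟩ : ∃ n : ℕ, m = (n : ℤ) := ⟨m.toNat, by omega⟩
    rw [zpow_natCast, a1_pow, a1_len n true c x hx]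
    omega

end Pool.Agent.H73F
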