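import Mathlib
import Pool.Agent.Lib.H73F.A1

set_option autoImplicit false

namespace Pool.Agent.H73F

/-- For every word there is a letter whose nontrivial powers increase the length. -/
theorem a3_exists (x : FreeGroup (Fin 2)) :
    ∃ c : Fin 2, ∀ m : ℤ, m ≠ 0 → x.norm < (FreeGroup.of c ^ m * x).norm := by
  rcases hw : x.toWord.head? with _ | e
  · exact ⟨0, fun m hm => a1_norm_lt 0 x (by simp [hw]) m hm⟩
  · by_cases he : e.1 = 0
    · exact ⟨1, fun m hm => a1_norm_lt 1 x (by intro e' he'; rw [hw] at he'; simp at he'; subst he'; rw [he]; decide) m hm⟩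
    · exact ⟨0, fun m hm => a1_norm_lt 0 x (by intro e' he'; rw [hw] at he'; simp at he'; subst he'; exact he) m hm⟩

open Classical in
theorem a3_card {ι L : Type*} (P : Finset ι) (p : ι) (hp : p ∈ P) (α : ι → L)
    (h : ∀ p' ∈ P, p' ≠ p → α p' ≠ α p) : ((P.erase p).image α).card + 1 ≤ (P.image α).card := by
  have h1 : α p ∉ (P.erase p).image α := by
    intro h2
    obtain ⟨q, hq, hqa⟩ := Finset.mem_image.1 h2
    exact h q (Finset.mem_of_mem_erase hq) (Finset.ne_of_mem_erase hq) hqa
  have h2 : insert (α p) ((P.erase p).image α) ⊆ P.image α := by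
    intro l hl
    rcases Finset.mem_insert.1 hl with rfl | hl
    · exact Finset.mem_image_of_mem α hp
    · obtain ⟨q, hq, rfl⟩ := Finset.mem_image.1 hl
      exact Finset.mem_image_of_mem α (Finset.mem_of_mem_erase hq)
  have h3 := Finset.card_le_card h2
  rwa [Finset.card_insert_of_notMem h1] at h3

theorem a3_new {ι L : Type*} (P : Finset ι) (x : ι → FreeGroup (Fin 2)) (hinj : Set.InjOn x P) (α : ι → L) (c : Fin 2)
    (hα : ∀ p ∈ P, ∀ p' ∈ P, α p = α p' → ∃ m : ℤ, FreeGroup.of c ^ m * x p = x p') (p : ι) (hp : p ∈ P)
    (hmax : ∀ q ∈ P, (x q).norm ≤ (x p).norm) (hc : ∀ m : ℤ, m ≠ 0 → (x p).norm < (FreeGroup.of c ^ m * x p).norm) :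
    ∀ p' ∈ P, p' ≠ p → α p' ≠ α p := by
  intro p' hp' hne heq
  obtain ⟨m, hm⟩ := hα p hp p' hp' heq.symm
  have hm0 : m ≠ 0 := by
    rintro rfl
    rw [zpow_zero, one_mul] at hm
    exact hne (hinj hp' hp hm.symm)
  have h1 := hc m hm0
  rw [hm] at h1
  exact absurd (hmax p' hp') (not_le.2 h1)

open Classical in
/-- CHUNK A3 (M).  THE TREE INEQUALITY for a finite family `x` of distinct elements of the free
group on two letters: the number of elements is at most the number of labels `α` plus the number
of labels `β`, if two elements with the same label `α` differ by a power of the first letter (on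
the left) and two elements with the same label `β` differ by a power of the second letter.
Proof.  Induction on `P.card` (`Finset.induction_on_max_value`-like, or strong induction on the
cardinality).  If `P` is empty it is clear.  Otherwise let `p ∈ P` have maximal
`(x p).norm` (`Finset.exists_max_image`).  By `a3_exists` there is a letter `c` with
`(x p).norm < (of c ^ m * x p).norm` for all `m ≠ 0`.  Say `c = 0`.  If `p' ∈ P`, `p' ≠ p` had the
label `α p' = α p`, then `of 0 ^ m * x p = x p'`, with `m ≠ 0` because `x p ≠ x p'` (injectivity),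
so `(x p').norm > (x p).norm`, which contradicts the maximality.  So the label `α p` does not
occur on `P.erase p`, hence `((P.erase p).image α).card + 1 ≤ (P.image α).card`; also
`((P.erase p).image β).card ≤ (P.image β).card`.  The induction hypothesis for `P.erase p` gives
the claim.  The case `c = 1` is the same with the roles of `α` and `β` exchanged. -/
theorem a3_tree {ι L1 L2 : Type*} (P : Finset ι) (x : ι → FreeGroup (Fin 2))
    (hinj : Set.InjOn x P) (α : ι → L1) (β : ι → L2)
    (hα : ∀ p ∈ P, ∀ p' ∈ P, α p = α p' → ∃ m : ℤ, FreeGroup.of 0 ^ m * x p = x p')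
    (hβ : ∀ p ∈ P, ∀ p' ∈ P, β p = β p' → ∃ m : ℤ, FreeGroup.of 1 ^ m * x p = x p') :
    P.card ≤ (P.image α).card + (P.image β).card := by
  induction hn : P.card generalizing P with
  | zero => exact Nat.zero_le _
  | succ n ih =>
    have hne : P.Nonempty := Finset.card_pos.1 (by omega)
    obtain ⟨p, hp, hmax⟩ := Finset.exists_max_image P (fun q => (x q).norm) hne
    have hsub : P.erase p ⊆ P := Finset.erase_subset p P
    have h1 := ih (P.erase p) (hinj.mono (by exact_mod_cast hsub))
      (fun a ha b hb => hα a (hsub ha) b (hsub hb)) (fun a ha b hb => hβ a (hsub ha) b (hsub hb))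
      (by rw [Finset.card_erase_of_mem hp]; omega)
    have hA : ((P.erase p).image α).card ≤ (P.image α).card := Finset.card_le_card (Finset.image_subset_image hsub)
    have hB : ((P.erase p).image β).card ≤ (P.image β).card := Finset.card_le_card (Finset.image_subset_image hsub)
    obtain ⟨c, hc⟩ := a3_exists (x p)
    have hc2 : c = 0 ∨ c = 1 := by
      fin_cases c <;> simp
    rcases hc2 with rfl | rfl
    · have h2 := a3_card P p hp α (a3_new P x hinj α 0 hα p hp hmax hc)
      omega
    · have h2 := a3_card P p hp β (a3_new P x hinj β 1 hβ p hp hmax hc)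
      omega

end Pool.Agent.H73F
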