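import Mathlib

set_option autoImplicit false

namespace Pool.Agent.H73F

open Pointwise Classical in
/-- CHUNK B1 (M).  Cyclic groups are amenable: a Foelner set `S` for the finite set `K`.
Proof.  If `g` has finite order, take `S` = the finite set `Subgroup.zpowers g`
(`Set.Finite.toFinset`); then `K * S ⊆ S`.  If `g` has infinite order, every `k ∈ K` is
`g ^ (e k)`, `e k : ℤ`; let `C : ℕ` bound all `|e k|`, take `N = 2 * C * n + 1` and
`S = {g ^ i : 0 ≤ i < N}` (image of `Finset.range N`; `N` elements, because the powers of `g` are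
distinct, `zpow` injective).  Then `K * S ⊆ {g ^ i : -C ≤ i < N + C}`, so
`(K * S).card ≤ N + 2 * C` and `(N + 2 * C) * n ≤ (n + 1) * N`. -/
theorem b1_folner {G : Type*} [Group G] (g : G) (K : Finset G)
    (hK : ∀ k ∈ K, k ∈ Subgroup.zpowers g) (n : ℕ) :
    ∃ S : Finset G, S.Nonempty ∧ (∀ s ∈ S, s ∈ Subgroup.zpowers g) ∧
      (K * S).card * n ≤ (n + 1) * S.card := by
  by_cases hfin : (Subgroup.zpowers g : Set G).Finite
  · refine ⟨hfin.toFinset, ⟨1, by simp [Subgroup.one_mem]⟩, fun s hs => by simpa using hs, ?_⟩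
    have h1 : K * hfin.toFinset ⊆ hfin.toFinset := by
      intro z hz
      obtain ⟨k, hk, s, hs, rfl⟩ := Finset.mem_mul.1 hz
      rw [Set.Finite.mem_toFinset] at hs ⊢
      exact Subgroup.mul_mem _ (hK k hk) hs
    calc (K * hfin.toFinset).card * n ≤ hfin.toFinset.card * n := Nat.mul_le_mul_right _ (Finset.card_le_card h1)
      _ ≤ hfin.toFinset.card * (n + 1) := Nat.mul_le_mul_left _ (Nat.le_succ n)
      _ = (n + 1) * hfin.toFinset.card := Nat.mul_comm _ _
  · have hinj : Function.Injective (fun i : ℤ => g ^ i) := by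
      rw [injective_zpow_iff_not_isOfFinOrder]
      intro h
      exact hfin ((finite_zpowers (a := g)).2 h)
    have hK' : ∀ k ∈ K, ∃ e : ℤ, g ^ e = k := fun k hk => Subgroup.mem_zpowers_iff.1 (hK k hk)
    choose! e he using hK'
    set C : ℕ := K.sup (fun k => (e k).natAbs) with hC
    have hCb : ∀ k ∈ K, (e k).natAbs ≤ C := fun k hk => Finset.le_sup (f := fun k => (e k).natAbs) hk
    set N : ℕ := 2 * C * n + 1 with hN
    refine ⟨(Finset.range N).image (fun i : ℕ => g ^ (i : ℤ)), ?_, ?_, ?_⟩
    · rw [Finset.image_nonempty, Finset.nonempty_range_iff]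
      omega
    · intro s hs
      obtain ⟨i, _, rfl⟩ := Finset.mem_image.1 hs
      exact Subgroup.zpow_mem_zpowers g i
    · have h1 : K * (Finset.range N).image (fun i : ℕ => g ^ (i : ℤ)) ⊆
          (Finset.Ico (-(C : ℤ)) (N + C)).image (fun i : ℤ => g ^ i) := by
        intro z hz
        obtain ⟨k, hk, s, hs, rfl⟩ := Finset.mem_mul.1 hz
        obtain ⟨i, hi, rfl⟩ := Finset.mem_image.1 hs
        rw [Finset.mem_image]
        refine ⟨e k + i, ?_, ?_⟩
        · rw [Finset.mem_Ico]
          have h2 := hCb k hk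
          have h3 := Finset.mem_range.1 hi
          omega
        · rw [zpow_add, he k hk]
      have h2 : (K * (Finset.range N).image (fun i : ℕ => g ^ (i : ℤ))).card ≤ N + 2 * C := by
        refine (Finset.card_le_card h1).trans (Finset.card_image_le.trans ?_)
        rw [Int.card_Ico]
        omega
      have h3 : ((Finset.range N).image (fun i : ℕ => g ^ (i : ℤ))).card = N := by
        rw [Finset.card_image_of_injective, Finset.card_range]
        intro i j hij
        exact_mod_cast hinj hij
      rw [h3]
      calc (K * (Finset.range N).image (fun i : ℕ => g ^ (i : ℤ))).card * n ≤ (N + 2 * C) * n := Nat.mul_le_mul_right _ h2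
        _ = N * n + 2 * C * n := by ring
        _ ≤ N * n + N := by omega
        _ = (n + 1) * N := by ring

end Pool.Agent.H73F
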