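import Mathlib
import Pool.Agent.Lib.H73F.A3
import Pool.Agent.Lib.H73F.B1

set_option autoImplicit false

namespace Pool.Agent.H73F

open Pointwise in
theorem b2_folner {G : Type*} [Group G] [inst : DecidableEq G] (g : G) (K : Finset G)
    (hK : ∀ k ∈ K, k ∈ Subgroup.zpowers g) (n : ℕ) :
    ∃ S : Finset G, S.Nonempty ∧ (∀ s ∈ S, s ∈ Subgroup.zpowers g) ∧
      (K * S).card * n ≤ (n + 1) * S.card := by
  have h : inst = (fun a b => Classical.propDecidable (a = b)) := Subsingleton.elim _ _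
  subst h
  exact b1_folner g K hK n

theorem b2_mem_image {A B : Type*} (i : DecidableEq B) (s : Finset A) (f : A → B) (z : B)
    (h : z ∈ @Finset.image A B i f s) : ∃ a ∈ s, f a = z := Finset.mem_image.1 h

/-- the stabiliser as a subgroup -/
def b2_stab {V : Type*} (act : FreeGroup (Fin 2) → V → V) (h1 : ∀ v, act 1 v = v)
    (hmul : ∀ f g v, act (f * g) v = act f (act g v)) (v₀ : V) : Subgroup (FreeGroup (Fin 2)) where
  carrier := {g | act g v₀ = v₀}
  one_mem' := h1 v₀
  mul_mem' := by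
    intro a b ha hb
    show act (a * b) v₀ = v₀
    rw [hmul, show act b v₀ = v₀ from hb]
    exact ha
  inv_mem' := by
    intro a ha
    show act a⁻¹ v₀ = v₀
    have h : act a v₀ = v₀ := ha
    calc act a⁻¹ v₀ = act a⁻¹ (act a v₀) := by rw [h]
      _ = v₀ := by rw [← hmul, inv_mul_cancel, h1]

theorem b2_inv {V : Type*} (act : FreeGroup (Fin 2) → V → V) (h1 : ∀ v, act 1 v = v)
    (hmul : ∀ f g v, act (f * g) v = act f (act g v)) {g : FreeGroup (Fin 2)} {x y : V} (h : act g x = y) :
    act g⁻¹ y = x := by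
  rw [← h, ← hmul, inv_mul_cancel, h1]

open Classical in
/-- the data attached to one label -/
theorem b2_data {V : Type*} (act : FreeGroup (Fin 2) → V → V) (h1 : ∀ v, act 1 v = v)
    (hmul : ∀ f g v, act (f * g) v = act f (act g v)) (v₀ : V) (c : Fin 2)
    {ι L1 : Type*} (P : Finset ι) (v : ι → V) (f : ι → FreeGroup (Fin 2)) (hf : ∀ p ∈ P, act (f p) v₀ = v p)
    (α : ι → L1)
    (hα : ∀ p ∈ P, ∀ p' ∈ P, α p = α p' → ∃ m : ℤ, act (FreeGroup.of c ^ m) (v p) = v p') :
    ∃ κ : ι → FreeGroup (Fin 2), (∀ p ∈ P, act (κ p) v₀ = v₀) ∧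
      ∀ p ∈ P, ∀ p' ∈ P, ∀ t t' : FreeGroup (Fin 2), α p = α p' → κ p * t = κ p' * t' →
        ∃ m : ℤ, FreeGroup.of c ^ m * (f p * t) = f p' * t' := by
  rcases P.eq_empty_or_nonempty with rfl | ⟨p₁, hp₁⟩
  · exact ⟨fun _ => 1, fun p hp => absurd hp (Finset.notMem_empty p), fun p hp => absurd hp (Finset.notMem_empty p)⟩
  have hne : Nonempty ι := ⟨p₁⟩
  have h2 : ∀ l ∈ P.image α, ∃ q, q ∈ P ∧ α q = l := by
    intro l hl
    obtain ⟨q, hq, hql⟩ := Finset.mem_image.1 hl
    exact ⟨q, hq, hql⟩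
  choose! r hr hrα using h2
  have h3 : ∀ p ∈ P, ∃ m : ℤ, act (FreeGroup.of c ^ m) (v (r (α p))) = v p := by
    intro p hp
    have hl := Finset.mem_image_of_mem α hp
    exact hα _ (hr _ hl) p hp (hrα _ hl)
  choose! m hm using h3
  refine ⟨fun p => (f (r (α p)))⁻¹ * (FreeGroup.of c ^ m p)⁻¹ * f p, ?_, ?_⟩
  · intro p hp
    have hl := Finset.mem_image_of_mem α hp
    rw [hmul, hmul, hf p hp, b2_inv act h1 hmul (hm p hp), b2_inv act h1 hmul (hf _ (hr _ hl))]
  · intro p hp p' hp' t t' hαα hκ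
    refine ⟨m p' - m p, ?_⟩
    simp only [hαα] at hκ
    have e1 : (FreeGroup.of c ^ m p)⁻¹ * (f p * t) = (FreeGroup.of c ^ m p')⁻¹ * (f p' * t') := by
      have h4 := congrArg (fun z => f (r (α p')) * z) hκ
      simpa [mul_assoc] using h4
    rw [zpow_sub, mul_assoc, e1, mul_inv_cancel_left]

open Pointwise Classical in
/-- CHUNK B2 (M).  The counting inequality for points of ONE orbit of the free group, when every
finite subset of the stabiliser of the base point `v₀` lies in a cyclic subgroup of the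
stabiliser.  (`act` is an action of `FreeGroup (Fin 2)` on `V`, written as a function.)
Proof.  Choose `f p` with `act (f p) v₀ = v p`.  For `p ∈ P` let `ρ p ∈ P` be an element
depending only on `α p` with `α (ρ p) = α p` (choose a section `L1 → ι` of `α` on `P.image α`),
and `m p : ℤ` with `act (of 0 ^ m p) (v (ρ p)) = v p`; put
`κ p = (f (ρ p))⁻¹ * (of 0 ^ m p)⁻¹ * f p`: it fixes `v₀`.  In the same way `ρ' p`, `m' p`,
`κ' p` for the label `β` and the letter `1`.  Let `K` be the finite set of all `κ p`, `κ' p`,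
`p ∈ P`; by `hst` it lies in a cyclic subgroup of the stabiliser.  Let `n : ℕ` be arbitrary and
let `S` be given by `b1_folner`.  Apply `a3_tree` to the index set `P ×ˢ S`, the elements
`x (p, t) = f p * t` and the labels `(α p, κ p * t)`, `(β p, κ' p * t)`:
injectivity: `f p * t = f p' * t'` gives (acting on `v₀`, `t`, `t'` fix `v₀`) `v p = v p'`, so
`p = p'` and `t = t'`; equal labels: `α p = α p'`, `κ p * t = κ p' * t'` imply `ρ p = ρ p'` and
`f p * t = of 0 ^ m p * f (ρ p) * (κ p * t)`, so `f p' * t' = of 0 ^ (m p' - m p) * (f p * t)`.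
The labels lie in `(P.image α) ×ˢ (K * S)`, so
`P.card * S.card ≤ ((P.image α).card + (P.image β).card) * (K * S).card`; multiply by `n`:
`P.card * n * S.card ≤ (a + b) * (n + 1) * S.card`, so `P.card * n ≤ (a + b) * (n + 1)` for every
`n`; with `n = a + b + 1` this gives `P.card ≤ a + b`. -/
theorem b2_orbit {V : Type*} (act : FreeGroup (Fin 2) → V → V) (h1 : ∀ v, act 1 v = v)
    (hmul : ∀ f g v, act (f * g) v = act f (act g v)) (v₀ : V)
    (hst : ∀ K : Finset (FreeGroup (Fin 2)), (∀ k ∈ K, act k v₀ = v₀) →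
      ∃ g, act g v₀ = v₀ ∧ ∀ k ∈ K, k ∈ Subgroup.zpowers g)
    {ι L1 L2 : Type*} (P : Finset ι) (v : ι → V) (hv : Set.InjOn v P)
    (horb : ∀ p ∈ P, ∃ f, act f v₀ = v p) (α : ι → L1) (β : ι → L2)
    (hα : ∀ p ∈ P, ∀ p' ∈ P, α p = α p' → ∃ m : ℤ, act (FreeGroup.of 0 ^ m) (v p) = v p')
    (hβ : ∀ p ∈ P, ∀ p' ∈ P, β p = β p' → ∃ m : ℤ, act (FreeGroup.of 1 ^ m) (v p) = v p') :
    P.card ≤ (P.image α).card + (P.image β).card := by
  choose! f hf using horb
  obtain ⟨κ, hκ, hκ2⟩ := b2_data act h1 hmul v₀ 0 P v f hf α hα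
  obtain ⟨κ', hκ', hκ2'⟩ := b2_data act h1 hmul v₀ 1 P v f hf β hβ
  obtain ⟨g, hg, hK⟩ := hst (P.image κ ∪ P.image κ') (by
    intro k hk
    rcases Finset.mem_union.1 hk with hk | hk
    · obtain ⟨p, hp, rfl⟩ := Finset.mem_image.1 hk
      exact hκ p hp
    · obtain ⟨p, hp, rfl⟩ := Finset.mem_image.1 hk
      exact hκ' p hp)
  set K : Finset (FreeGroup (Fin 2)) := P.image κ ∪ P.image κ' with hKdef
  set n : ℕ := (P.image α).card + (P.image β).card + 1 with hn
  obtain ⟨S, hSne, hSz, hSc⟩ := b2_folner g K hK n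
  have hSfix : ∀ s ∈ S, act s v₀ = v₀ := by
    intro s hs
    have h2 : Subgroup.zpowers g ≤ b2_stab act h1 hmul v₀ := by
      rw [Subgroup.zpowers_le]
      exact hg
    exact h2 (hSz s hs)
  have key := a3_tree (P ×ˢ S) (fun q => f q.1 * q.2) (by
      rintro ⟨p, t⟩ hq ⟨p', t'⟩ hq' heq
      rw [Finset.mem_coe, Finset.mem_product] at hq hq'
      simp only at hq hq' heq
      have h2 : v p = v p' := by
        rw [← hf p hq.1, ← hf p' hq'.1]
        calc act (f p) v₀ = act (f p) (act t v₀) := by rw [hSfix t hq.2]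
          _ = act (f p * t) v₀ := (hmul _ _ _).symm
          _ = act (f p' * t') v₀ := by rw [heq]
          _ = act (f p') (act t' v₀) := hmul _ _ _
          _ = act (f p') v₀ := by rw [hSfix t' hq'.2]
      have h3 : p = p' := hv hq.1 hq'.1 h2
      subst h3
      have h4 : t = t' := mul_left_cancel heq
      rw [h4])
    (fun q => (α q.1, κ q.1 * q.2)) (fun q => (β q.1, κ' q.1 * q.2))
    (by
      rintro ⟨p, t⟩ hq ⟨p', t'⟩ hq' heq
      rw [Finset.mem_product] at hq hq'
      simp only [Prod.mk.injEq] at hq hq' heq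
      exact hκ2 p hq.1 p' hq'.1 t t' heq.1 heq.2)
    (by
      rintro ⟨p, t⟩ hq ⟨p', t'⟩ hq' heq
      rw [Finset.mem_product] at hq hq'
      simp only [Prod.mk.injEq] at hq hq' heq
      exact hκ2' p hq.1 p' hq'.1 t t' heq.1 heq.2)
  rw [Finset.card_product] at key
  set a := (P.image α).card with ha
  set b := (P.image β).card with hb
  have hSpos : 0 < S.card := Finset.card_pos.2 hSne
  have h5 : P.card * S.card ≤ (a + b) * (K * S).card := by
    calc P.card * S.card ≤ _ := key
      _ ≤ a * (K * S).card + b * (K * S).card := by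
        apply Nat.add_le_add
        · rw [ha, ← Finset.card_product]
          apply Finset.card_le_card
          intro z hz
          obtain ⟨⟨p, t⟩, hq, rfl⟩ := b2_mem_image _ _ _ _ hz
          rw [Finset.mem_product] at hq
          rw [Finset.mem_product]
          exact ⟨Finset.mem_image_of_mem α hq.1, Finset.mul_mem_mul (Finset.mem_union_left _ (Finset.mem_image_of_mem κ hq.1)) hq.2⟩
        · rw [hb, ← Finset.card_product]
          apply Finset.card_le_card
          intro z hz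
          obtain ⟨⟨p, t⟩, hq, rfl⟩ := b2_mem_image _ _ _ _ hz
          rw [Finset.mem_product] at hq
          rw [Finset.mem_product]
          exact ⟨Finset.mem_image_of_mem β hq.1, Finset.mul_mem_mul (Finset.mem_union_right _ (Finset.mem_image_of_mem κ' hq.1)) hq.2⟩
      _ = (a + b) * (K * S).card := by ring
  have h6 : (P.card * n) * S.card ≤ ((a + b) * (n + 1)) * S.card := by
    calc (P.card * n) * S.card = (P.card * S.card) * n := by ring
      _ ≤ ((a + b) * (K * S).card) * n := Nat.mul_le_mul_right _ h5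
      _ = (a + b) * ((K * S).card * n) := by ring
      _ ≤ (a + b) * ((n + 1) * S.card) := Nat.mul_le_mul_left _ hSc
      _ = ((a + b) * (n + 1)) * S.card := by ring
  have h7 : P.card * n ≤ (a + b) * (n + 1) := Nat.le_of_mul_le_mul_right h6 hSpos
  by_contra hcon
  push Not at hcon
  have h8 : (a + b + 1) * n ≤ P.card * n := Nat.mul_le_mul_right _ hcon
  have h9 : (a + b + 1) * n ≤ (a + b) * (n + 1) := h8.trans h7
  rw [hn] at h9
  nlinarith [h9]

end Pool.Agent.H73F
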