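import Mathlib
import Pool.Agent.Lib.H73F.B2

set_option autoImplicit false

namespace Pool.Agent.H73F

open Classical in
theorem b3_disj {V : Type*} (act : FreeGroup (Fin 2) → V → V)
    (hmul : ∀ f g v, act (f * g) v = act f (act g v)) {ι L : Type*} (P : Finset ι) (v : ι → V) (v₀ : V)
    (γ : ι → L) (c : Fin 2)
    (hγ : ∀ p ∈ P, ∀ p' ∈ P, γ p = γ p' → ∃ m : ℤ, act (FreeGroup.of c ^ m) (v p) = v p') :
    ((P.filter (fun p => ∃ f, act f v₀ = v p)).image γ).card +
      ((P.filter (fun p => ¬ ∃ f, act f v₀ = v p)).image γ).card ≤ (P.image γ).card := by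
  have hd : Disjoint ((P.filter (fun p => ∃ f, act f v₀ = v p)).image γ)
      ((P.filter (fun p => ¬ ∃ f, act f v₀ = v p)).image γ) := by
    rw [Finset.disjoint_left]
    intro l hl hl'
    obtain ⟨p, hp, rfl⟩ := Finset.mem_image.1 hl
    obtain ⟨p', hp', heq⟩ := Finset.mem_image.1 hl'
    rw [Finset.mem_filter] at hp hp'
    obtain ⟨f, hf⟩ := hp.2
    apply hp'.2
    obtain ⟨m, hm⟩ := hγ p hp.1 p' hp'.1 heq.symm
    refine ⟨FreeGroup.of c ^ m * f, ?_⟩
    rw [hmul, hf, hm]
  rw [← Finset.card_union_of_disjoint hd]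
  apply Finset.card_le_card
  exact Finset.union_subset (Finset.image_subset_image (Finset.filter_subset _ _))
    (Finset.image_subset_image (Finset.filter_subset _ _))

open Classical in
/-- CHUNK B3 (M).  The counting inequality for arbitrary finite sets of points (several orbits).
Proof.  Strong induction on `P.card`.  If `P` is empty it is clear.  Otherwise let `p₀ ∈ P`,
`P₀ = {p ∈ P : ∃ f, act f (v p₀) = v p}`, `P₁ = P \ P₀` (`p₀ ∈ P₀`, so `P₁` is smaller).
`b2_orbit` with `v₀ = v p₀` gives the inequality for `P₀`, the induction hypothesis gives it for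
`P₁`.  Two elements with the same label (`α` or `β`) are in the same orbit, so no label of `P₀`
occurs in `P₁`: `P₀.image α` and `P₁.image α` are disjoint, with union `P.image α`, so
`(P₀.image α).card + (P₁.image α).card ≤ (P.image α).card`, and the same for `β`.  Add. -/
theorem b3_criterion {V : Type*} (act : FreeGroup (Fin 2) → V → V) (h1 : ∀ v, act 1 v = v)
    (hmul : ∀ f g v, act (f * g) v = act f (act g v))
    {ι L1 L2 : Type*} (P : Finset ι) (v : ι → V)
    (hst : ∀ p ∈ P, ∀ K : Finset (FreeGroup (Fin 2)), (∀ k ∈ K, act k (v p) = v p) →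
      ∃ g, act g (v p) = v p ∧ ∀ k ∈ K, k ∈ Subgroup.zpowers g)
    (hv : Set.InjOn v P) (α : ι → L1) (β : ι → L2)
    (hα : ∀ p ∈ P, ∀ p' ∈ P, α p = α p' → ∃ m : ℤ, act (FreeGroup.of 0 ^ m) (v p) = v p')
    (hβ : ∀ p ∈ P, ∀ p' ∈ P, β p = β p' → ∃ m : ℤ, act (FreeGroup.of 1 ^ m) (v p) = v p') :
    P.card ≤ (P.image α).card + (P.image β).card := by
  induction hn : P.card using Nat.strong_induction_on generalizing P with
  | _ n ih =>
    rcases P.eq_empty_or_nonempty with rfl | ⟨p₀, hp₀⟩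
    · rw [Finset.card_empty] at hn
      omega
    set P₀ := P.filter (fun p => ∃ f, act f (v p₀) = v p) with hP₀
    set P₁ := P.filter (fun p => ¬ ∃ f, act f (v p₀) = v p) with hP₁
    have hs0 : P₀ ⊆ P := Finset.filter_subset _ _
    have hs1 : P₁ ⊆ P := Finset.filter_subset _ _
    have hcard : P₀.card + P₁.card = P.card := Finset.card_filter_add_card_filter_not _
    have hmem : p₀ ∈ P₀ := Finset.mem_filter.2 ⟨hp₀, 1, h1 _⟩
    have hpos : 0 < P₀.card := Finset.card_pos.2 ⟨p₀, hmem⟩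
    have hb := b2_orbit act h1 hmul (v p₀) (hst p₀ hp₀) P₀ v (hv.mono (by exact_mod_cast hs0))
      (fun p hp => (Finset.mem_filter.1 hp).2) α β
      (fun a ha b hb => hα a (hs0 ha) b (hs0 hb)) (fun a ha b hb => hβ a (hs0 ha) b (hs0 hb))
    have hi := ih P₁.card (by omega) P₁ (fun a ha => hst a (hs1 ha)) (hv.mono (by exact_mod_cast hs1))
      (fun a ha b hb => hα a (hs1 ha) b (hs1 hb)) (fun a ha b hb => hβ a (hs1 ha) b (hs1 hb)) rfl
    have hA := b3_disj act hmul P v (v p₀) α 0 hα
    have hB := b3_disj act hmul P v (v p₀) β 1 hβ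
    rw [← hP₀, ← hP₁] at hA hB
    omega

end Pool.Agent.H73F
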