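import Mathlib

set_option autoImplicit false

namespace Pool.Agent.H73F

open Matrix

/-- The unipotent matrix `I + t (x, y)ᵀ (-y, x)` with fixed vector `(x, y)`. -/
def uni (x y t : ℚ) : Matrix (Fin 2) (Fin 2) ℚ :=
  !![1 - t * (x * y), t * (x * x); -(t * (y * y)), 1 + t * (x * y)]

/-- CHUNK C1 (S).  A matrix of determinant one with a fixed vector is unipotent.
Proof.  Write `M = !![a, b; c, d]`, so `a x + b y = x`, `c x + d y = y`, `a d - b c = 1`.
If `x ≠ 0` put `t = b / (x * x)`: then `a = 1 - b y / x`; from `c x = y (1 - d)` and the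
determinant, `x = x (a d - b c) = d (x - b y) - b y (1 - d) = d x - b y`, so `d = 1 + b y / x` and
`c = - b y² / x²`.  If `x = 0` then `y ≠ 0`, `b = 0`, `d = 1`, `a = 1`; take `t = -c / (y * y)`. -/
theorem c1_unipotent (M : Matrix (Fin 2) (Fin 2) ℚ) (hM : M.det = 1) (x y : ℚ)
    (hxy : (x, y) ≠ (0, 0)) (h0 : M 0 0 * x + M 0 1 * y = x) (h1 : M 1 0 * x + M 1 1 * y = y) :
    ∃ t : ℚ, M = uni x y t := by
  rw [Matrix.det_fin_two] at hM
  have hMe : M = !![M 0 0, M 0 1; M 1 0, M 1 1] := by
    ext i j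
    fin_cases i <;> fin_cases j <;> rfl
  generalize M 0 0 = a at *
  generalize M 0 1 = b at *
  generalize M 1 0 = c at *
  generalize M 1 1 = d at *
  by_cases hx : x = 0
  · subst hx
    have hy : y ≠ 0 := fun h => hxy (by rw [h])
    have hb : b = 0 := by
      have h2 : b * y = 0 := by linarith
      exact (mul_eq_zero.1 h2).resolve_right hy
    have hd : d = 1 := by
      have h2 : (d - 1) * y = 0 := by linarith
      have h3 := (mul_eq_zero.1 h2).resolve_right hy
      linarith
    have ha : a = 1 := by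
      rw [hb, hd] at hM
      linarith
    refine ⟨-c / (y * y), ?_⟩
    rw [hMe, uni, hb, hd, ha]
    have e1 : -(-c / (y * y) * (y * y)) = c := by
      field_simp
    rw [e1]
    simp
  · have hd : d = 1 + b * y / x := by
      have h2 : x * d = x + b * y := by
        linear_combination x * hM - d * h0 + b * h1
      field_simp
      linarith
    have ha : a = 1 - b * y / x := by
      field_simp
      linarith
    have hc : c = -(b * (y * y) / (x * x)) := by
      have h2 : c * x = y * (1 - d) := by linarith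
      rw [hd] at h2
      have h3 : c * x = -(b * (y * y) / x) := by
        rw [h2]
        ring
      have h4 : c = (c * x) / x := by
        field_simp
      rw [h4, h3]
      field_simp
    refine ⟨b / (x * x), ?_⟩
    rw [hMe, uni, hd, ha, hc]
    have e1 : 1 - b / (x * x) * (x * y) = 1 - b * y / x := by
      field_simp
    have e2 : b / (x * x) * (x * x) = b := by
      field_simp
    have e3 : -(b / (x * x) * (y * y)) = -(b * (y * y) / (x * x)) := by
      ring
    have e4 : 1 + b / (x * x) * (x * y) = 1 + b * y / x := by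
      field_simp
    rw [e1, e2, e3, e4]

theorem c2_mul (x y t t' : ℚ) : uni x y t * uni x y t' = uni x y (t + t') := by
  unfold uni
  rw [Matrix.mul_fin_two]
  congr 1
  ext i j
  fin_cases i <;> fin_cases j <;> simp <;> ring

theorem c2_det (x y t : ℚ) : (uni x y t).det = 1 := by
  unfold uni
  rw [Matrix.det_fin_two_of]
  ring

/-- the unipotent one parameter group -/
def uH (x y : ℚ) : Multiplicative ℚ →* Matrix.SpecialLinearGroup (Fin 2) ℚ where
  toFun t := ⟨uni x y t.toAdd, c2_det x y _⟩
  map_one' := by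
    apply Subtype.ext
    change uni x y 0 = 1
    unfold uni
    ext i j
    fin_cases i <;> fin_cases j <;> simp
  map_mul' t t' := by
    apply Subtype.ext
    change uni x y (t.toAdd + t'.toAdd) = uni x y t.toAdd * uni x y t'.toAdd
    rw [c2_mul]

theorem c2_uH (x y t : ℚ) : (uH x y (Multiplicative.ofAdd t)).1 = uni x y t := rfl

theorem c2_fix (x y t : ℚ) : (uni x y t) 0 0 * x + (uni x y t) 0 1 * y = x ∧
    (uni x y t) 1 0 * x + (uni x y t) 1 1 * y = y := by
  unfold uni
  constructor
  · simp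
    ring
  · simp
    ring

/-- CHUNK C2 (M).  If `ψ` is an injective homomorphism from a group to `SL(2, ℚ)`, then every
finite subset of the stabiliser of a nonzero vector `(x, y)` lies in a cyclic subgroup of the
stabiliser.
Proof.  By `c1_unipotent` every `k ∈ K` has `ψ k = uni x y (τ k)`.  Let `D > 0` be a common
denominator of the finitely many `τ k` (for example the product of the denominators), so
`ψ k = uni x y (m / D)` with `m : ℤ`.  `uni x y t * uni x y t' = uni x y (t + t')`,
`uni x y 0 = 1`, and `t ↦ uni x y t` is injective (entries `t x²`, `t y²`).  Let `C` be the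
subgroup of all `f` such that `ψ f = uni x y (m / D)` for some `m : ℤ`.  The map `C → ℤ`,
`f ↦ m`, is an injective homomorphism (`ψ` is injective) to the cyclic group
`Multiplicative ℤ`, so `C` is cyclic (`isCyclic_of_injective`, or: `C` is isomorphic to a
subgroup of a cyclic group), with a generator `g`; `g ∈ C` fixes `(x, y)`, and `K ⊆ C` lies in
`Subgroup.zpowers g`. -/
theorem c2_cyclic {F : Type*} [Group F] (ψ : F →* Matrix.SpecialLinearGroup (Fin 2) ℚ)
    (hψ : Function.Injective ψ) (x y : ℚ) (hxy : (x, y) ≠ (0, 0)) (K : Finset F)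
    (hK : ∀ k ∈ K, (ψ k).1 0 0 * x + (ψ k).1 0 1 * y = x ∧ (ψ k).1 1 0 * x + (ψ k).1 1 1 * y = y) :
    ∃ g : F, ((ψ g).1 0 0 * x + (ψ g).1 0 1 * y = x ∧ (ψ g).1 1 0 * x + (ψ g).1 1 1 * y = y) ∧
      ∀ k ∈ K, k ∈ Subgroup.zpowers g := by
  have h1 : ∀ k ∈ K, ∃ t : ℚ, ψ k = uH x y (Multiplicative.ofAdd t) := by
    intro k hk
    obtain ⟨t, ht⟩ := c1_unipotent (ψ k).1 (ψ k).2 x y hxy (hK k hk).1 (hK k hk).2
    exact ⟨t, Subtype.ext ht⟩
  choose! τ hτ using h1
  set D : ℕ := ∏ k ∈ K, (τ k).den with hD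
  have hD0 : D ≠ 0 := Finset.prod_ne_zero_iff.2 fun k _ => (τ k).den_nz
  have hDq : (D : ℚ) ≠ 0 := by exact_mod_cast hD0
  have h2 : ∀ k ∈ K, ∃ m : ℤ, τ k = (m : ℚ) / D := by
    intro k hk
    obtain ⟨e, he⟩ : (τ k).den ∣ D := Finset.dvd_prod_of_mem (fun k => (τ k).den) hk
    refine ⟨(τ k).num * e, ?_⟩
    rw [eq_div_iff hDq, he]
    push_cast
    have h3 : τ k * ((τ k).den : ℚ) = (τ k).num := Rat.mul_den_eq_num _
    rw [← mul_assoc, h3]
  choose! m hm using h2
  let S : AddSubgroup ℤ :=
    { carrier := {n | ∃ f : F, ψ f = uH x y (Multiplicative.ofAdd ((n : ℚ) / D))}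
      zero_mem' := ⟨1, by simp⟩
      add_mem' := by
        rintro n n' ⟨f, hf⟩ ⟨f', hf'⟩
        refine ⟨f * f', ?_⟩
        rw [map_mul, hf, hf', ← map_mul, ← ofAdd_add]
        congr 2
        push_cast
        ring
      neg_mem' := by
        rintro n ⟨f, hf⟩
        refine ⟨f⁻¹, ?_⟩
        rw [map_inv, hf, ← map_inv, ← ofAdd_neg]
        congr 2
        push_cast
        ring }
  obtain ⟨a, ha⟩ := Int.subgroup_cyclic S
  have haS : a ∈ S := by
    rw [ha]
    exact AddSubgroup.subset_closure rfl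
  obtain ⟨g, hg⟩ := haS
  refine ⟨g, ?_, ?_⟩
  · rw [hg, c2_uH]
    exact c2_fix x y _
  · intro k hk
    have hk1 : m k ∈ S := ⟨k, by rw [hτ k hk, hm k hk]⟩
    rw [ha, AddSubgroup.mem_closure_singleton] at hk1
    obtain ⟨n, hn⟩ := hk1
    rw [Subgroup.mem_zpowers_iff]
    refine ⟨n, ?_⟩
    apply hψ
    rw [map_zpow, hg, hτ k hk, hm k hk, ← map_zpow, ← ofAdd_zsmul, ← hn]
    congr 2
    rw [zsmul_eq_mul, smul_eq_mul]
    push_cast
    ring

end Pool.Agent.H73F
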