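import Mathlib
import Pool.Agent.Lib.H73F.B3
import Pool.Agent.Lib.H73F.C2
import Pool.Agent.H78.Farbman.Word

set_option autoImplicit false

namespace Pool.Agent.H73F

open Matrix Pool.Agent.H78.Farbman

/-- `[[1, q], [0, 1]]` in `SL(2, ℚ)`. -/
def gA (q : ℚ) : Matrix.SpecialLinearGroup (Fin 2) ℚ :=
  ⟨!![1, q; 0, 1], by simp [Matrix.det_fin_two_of]⟩

/-- `[[1, 0], [1, 1]]` in `SL(2, ℚ)`. -/
def gB : Matrix.SpecialLinearGroup (Fin 2) ℚ :=
  ⟨!![1, 0; 1, 1], by simp [Matrix.det_fin_two_of]⟩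

/-- CHUNK C3 (S/M).  If `q` is not a relation number, then the homomorphism to `SL(2, ℚ)` is
injective.
Proof.  Unfold `IsRelationNumber`: there are `g h : GL (Fin 2) ℂ` with the given entries and
`FreeGroup.lift ![g, h]` injective.  Let `j : SL(2, ℚ) →* GL (Fin 2) ℂ` be the composition of
`Matrix.SpecialLinearGroup.map (algebraMap ℚ ℂ)` (or `Rat.castHom ℂ`) with
`Matrix.SpecialLinearGroup.toGL`; then `j (gA q) = g`, `j gB = h` (`Units.ext`, compare the
entries), so `j ∘ lift ![gA q, gB] = lift ![g, h]` (`FreeGroup.ext_hom`), and injectivity of the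
composition implies injectivity of `lift ![gA q, gB]`. -/
theorem c3_injective (q : ℚ) (hq : ¬ IsRelationNumber q) :
    Function.Injective (FreeGroup.lift ![gA q, gB]) := by
  unfold IsRelationNumber at hq
  push Not at hq
  obtain ⟨g, h, hg, hh, hinj⟩ := hq
  let j : Matrix.SpecialLinearGroup (Fin 2) ℚ →* Matrix.GeneralLinearGroup (Fin 2) ℂ :=
    Matrix.SpecialLinearGroup.toGL.comp (Matrix.SpecialLinearGroup.map (Rat.castHom ℂ))
  have hjA : j (gA q) = g := by
    apply Units.ext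
    rw [hg]
    change (!![1, q; 0, 1] : Matrix (Fin 2) (Fin 2) ℚ).map (Rat.castHom ℂ) = !![1, (q : ℂ); 0, 1]
    ext a b
    fin_cases a <;> fin_cases b <;> simp
  have hjB : j gB = h := by
    apply Units.ext
    rw [hh]
    change (!![1, 0; 1, 1] : Matrix (Fin 2) (Fin 2) ℚ).map (Rat.castHom ℂ) = !![1, 0; 1, 1]
    ext a b
    fin_cases a <;> fin_cases b <;> simp
  have hcomp : j.comp (FreeGroup.lift ![gA q, gB]) = FreeGroup.lift ![g, h] := by
    apply FreeGroup.ext_hom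
    intro a
    rw [MonoidHom.comp_apply, FreeGroup.lift_apply_of, FreeGroup.lift_apply_of]
    fin_cases a
    · exact hjA
    · exact hjB
  rw [← hcomp, MonoidHom.coe_comp] at hinj
  exact hinj.of_comp

/-- the upper unipotents -/
def c4_uA : Multiplicative ℚ →* Matrix.SpecialLinearGroup (Fin 2) ℚ where
  toFun t := gA t.toAdd
  map_one' := by
    apply Subtype.ext
    ext i j
    fin_cases i <;> fin_cases j <;> simp [gA]
  map_mul' t t' := by
    apply Subtype.ext
    change !![1, t.toAdd + t'.toAdd; 0, 1] = !![1, t.toAdd; 0, 1] * !![1, t'.toAdd; 0, 1]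
    ext i j
    fin_cases i <;> fin_cases j <;> simp [Matrix.mul_apply, Fin.sum_univ_two, add_comm]

/-- the lower unipotents -/
def c4_uB : Multiplicative ℚ →* Matrix.SpecialLinearGroup (Fin 2) ℚ where
  toFun t := ⟨!![1, 0; t.toAdd, 1], by simp [Matrix.det_fin_two_of]⟩
  map_one' := by
    apply Subtype.ext
    ext i j
    fin_cases i <;> fin_cases j <;> simp
  map_mul' t t' := by
    apply Subtype.ext
    change !![1, 0; t.toAdd + t'.toAdd, 1] = !![1, 0; t.toAdd, 1] * !![1, 0; t'.toAdd, 1]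
    ext i j
    fin_cases i <;> fin_cases j <;> simp [Matrix.mul_apply, Fin.sum_univ_two]

/-- CHUNK C4A (S).  Powers of the generators: `[[1, q], [0, 1]]^m = [[1, m q], [0, 1]]`. -/
theorem c4_powA (q : ℚ) (m : ℤ) :
    ((FreeGroup.lift ![gA q, gB]) (FreeGroup.of 0 ^ m)).1 = !![1, (m : ℚ) * q; 0, 1] := by
  have h1 : (FreeGroup.lift ![gA q, gB]) (FreeGroup.of 0 ^ m) =
      c4_uA (Multiplicative.ofAdd ((m : ℚ) * q)) := by
    rw [map_zpow, FreeGroup.lift_apply_of]
    change (c4_uA (Multiplicative.ofAdd q)) ^ m = _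
    rw [← map_zpow, ← ofAdd_zsmul, zsmul_eq_mul]
  rw [h1]
  rfl

/-- CHUNK C4A (S).  `[[1, 0], [1, 1]]^m = [[1, 0], [m, 1]]`. -/
theorem c4_powB (q : ℚ) (m : ℤ) :
    ((FreeGroup.lift ![gA q, gB]) (FreeGroup.of 1 ^ m)).1 = !![1, 0; (m : ℚ), 1] := by
  have h1 : (FreeGroup.lift ![gA q, gB]) (FreeGroup.of 1 ^ m) =
      c4_uB (Multiplicative.ofAdd (m : ℚ)) := by
    rw [map_zpow, FreeGroup.lift_apply_of]
    change (c4_uB (Multiplicative.ofAdd 1)) ^ m = _
    rw [← map_zpow, ← ofAdd_zsmul, zsmul_eq_mul, mul_one]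
  rw [h1]
  rfl

open Classical in
/-- CHUNK C4 (S/M).  THE CRITERION: if `⟨[[1,q],[0,1]], [[1,0],[1,1]]⟩` is free on the two
generators, then every finite family `v` of distinct nonzero vectors satisfies the counting
inequality: the number of vectors is at most the number of labels `α` (vectors with the same
label lie in the same orbit of `[[1,q],[0,1]]`) plus the number of labels `β` (orbits of
`[[1,0],[1,1]]`).
Proof.  Apply `b3_criterion` with `V = ℚ × ℚ`,
`act f w = ((ψ f).1 0 0 * w.1 + (ψ f).1 0 1 * w.2, (ψ f).1 1 0 * w.1 + (ψ f).1 1 1 * w.2)`,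
`ψ = FreeGroup.lift ![gA q, gB]` (injective by `c3_injective`); `hst` is `c2_cyclic`; the powers
of the generators are `c4_powA`, `c4_powB`. -/
theorem c4_crit (q : ℚ) (hq : ¬ IsRelationNumber q) {ι L1 L2 : Type*} (P : Finset ι)
    (v : ι → ℚ × ℚ) (hv0 : ∀ p ∈ P, v p ≠ (0, 0)) (hv : Set.InjOn v P)
    (α : ι → L1) (β : ι → L2)
    (hα : ∀ p ∈ P, ∀ p' ∈ P, α p = α p' →
      (v p').2 = (v p).2 ∧ ∃ m : ℤ, (v p').1 = (v p).1 + (m : ℚ) * q * (v p).2)
    (hβ : ∀ p ∈ P, ∀ p' ∈ P, β p = β p' →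
      (v p').1 = (v p).1 ∧ ∃ m : ℤ, (v p').2 = (v p).2 + (m : ℚ) * (v p).1) :
    P.card ≤ (P.image α).card + (P.image β).card := by
  set ψ := FreeGroup.lift ![gA q, gB] with hψ
  have hinj := c3_injective q hq
  refine b3_criterion (V := ℚ × ℚ)
    (fun f w => ((ψ f).1 0 0 * w.1 + (ψ f).1 0 1 * w.2, (ψ f).1 1 0 * w.1 + (ψ f).1 1 1 * w.2))
    ?_ ?_ P v ?_ hv α β ?_ ?_
  · intro w
    simp [map_one]
  · intro f g w
    simp only [map_mul, Matrix.SpecialLinearGroup.coe_mul, Matrix.mul_apply, Fin.sum_univ_two]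
    ext
    · simp only
      ring
    · simp only
      ring
  · intro p hp K hK
    have h1 : ((v p).1, (v p).2) ≠ (0, 0) := hv0 p hp
    obtain ⟨g, hg, hgK⟩ := c2_cyclic ψ hinj (v p).1 (v p).2 h1 K (by
      intro k hk
      have h2 := hK k hk
      exact ⟨congrArg Prod.fst h2, congrArg Prod.snd h2⟩)
    exact ⟨g, Prod.ext hg.1 hg.2, hgK⟩
  · intro p hp p' hp' h
    obtain ⟨h2, m, h1⟩ := hα p hp p' hp' h
    refine ⟨m, ?_⟩
    simp only [hψ]
    rw [c4_powA]
    ext
    · simp [h1]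
    · simp [h2]
  · intro p hp p' hp' h
    obtain ⟨h2, m, h1⟩ := hβ p hp p' hp' h
    refine ⟨m, ?_⟩
    simp only [hψ]
    rw [c4_powB]
    ext
    · simp [h2]
    · simp [h1, add_comm]

end Pool.Agent.H73F
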