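import Mathlib

set_option autoImplicit false

namespace Pool.Agent.H73F

/-- The nonzero integers of absolute value at most `n`. -/
noncomputable def pm (n : ℕ) : Finset ℤ := (Finset.Icc (-(n : ℤ)) n).erase 0

theorem mem_pm (n : ℕ) (x : ℤ) : x ∈ pm n ↔ x ≠ 0 ∧ -(n : ℤ) ≤ x ∧ x ≤ n := by
  simp [pm]

/-- The index set: quadruples `(j, σ, X, Y)` with `0 ≤ j < J`, `σ ∈ {0, 1}`,
`X ∈ ± [1, T]`, `Y ∈ ± [1, h]`, where `r ∤ Y` if `σ = 0` and `r ∤ X` if `σ = 1`. -/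
noncomputable def idx (r h T J : ℕ) : Finset (ℕ × ℕ × ℤ × ℤ) :=
  (Finset.range J ×ˢ (Finset.range 2 ×ˢ (pm T ×ˢ pm h))).filter
    (fun p => (p.2.1 = 0 → ¬ (r : ℤ) ∣ p.2.2.2) ∧ (p.2.1 = 1 → ¬ (r : ℤ) ∣ p.2.2.1))

/-- The vector `r ^ (-j) (X / r ^ σ, Y)`. -/
def vec (r : ℕ) (p : ℕ × ℕ × ℤ × ℤ) : ℚ × ℚ :=
  ((p.2.2.1 : ℚ) / (r : ℚ) ^ (p.1 + p.2.1), (p.2.2.2 : ℚ) / (r : ℚ) ^ p.1)

/-- The label of the orbit of `[[1, s / r], [0, 1]]`: `(j, Y, r ^ (1 - σ) X mod s Y)`. -/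
def labA (s r : ℕ) (p : ℕ × ℕ × ℤ × ℤ) : ℕ × ℤ × ℤ :=
  (p.1, p.2.2.2, ((r : ℤ) ^ (1 - p.2.1) * p.2.2.1) % ((s : ℤ) * p.2.2.2))

/-- The label of the orbit of `[[1, 0], [1, 1]]`: `(j + σ, X, r ^ σ Y mod X)`. -/
def labB (r : ℕ) (p : ℕ × ℕ × ℤ × ℤ) : ℕ × ℤ × ℤ :=
  (p.1 + p.2.1, p.2.2.1, ((r : ℤ) ^ p.2.1 * p.2.2.2) % p.2.2.1)

/-- The residues modulo `x` of the numbers `c` and of the numbers `r c`, `c ∈ ± [1, h]`. -/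
noncomputable def resB (r h x : ℕ) : Finset ℤ :=
  (pm h).image (fun c => c % (x : ℤ)) ∪ (pm h).image (fun c => ((r : ℤ) * c) % (x : ℤ))

end Pool.Agent.H73F
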