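import Mathlib
import Pool.Agent.Lib.H73F.D0

set_option autoImplicit false

namespace Pool.Agent.H73F

/-- CHUNK D3 (S/M), part 1: `pm n` has `2 n` elements, `2 (n / r)` of them divisible by `r`. -/
theorem d3_card (n : ℕ) : (pm n).card = 2 * n := by
  rw [pm, Finset.card_erase_of_mem (by rw [Finset.mem_Icc]; omega), Int.card_Icc]
  omega

/-- CHUNK D3, part 2.
Proof.  The multiples of `r` in `pm n` are the `r c`, `c ∈ pm (n / r)` (image of `pm (n / r)` under
an injective map), so there are `2 (n / r)` of them. -/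
theorem d3_card_not_dvd (n r : ℕ) (hr : 1 ≤ r) :
    ((pm n).filter (fun x => ¬ (r : ℤ) ∣ x)).card = 2 * n - 2 * (n / r) := by
  have hr0 : (0 : ℤ) < r := by exact_mod_cast hr
  have h1 : (pm n).filter (fun x => (r : ℤ) ∣ x) = (pm (n / r)).image (fun c => (r : ℤ) * c) := by
    ext x
    rw [Finset.mem_filter, Finset.mem_image, mem_pm]
    constructor
    · rintro ⟨⟨h0, h1, h2⟩, c, rfl⟩
      refine ⟨c, ?_, rfl⟩
      rw [mem_pm]
      have hc0 : c ≠ 0 := by
        rintro rfl
        exact h0 (mul_zero _)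
      refine ⟨hc0, ?_, ?_⟩
      · have h3 : -c ≤ (n : ℤ) / r := by
          rw [Int.le_ediv_iff_mul_le hr0]
          linarith
        push_cast
        linarith
      · push_cast
        rw [Int.le_ediv_iff_mul_le hr0]
        linarith
    · rintro ⟨c, hc, rfl⟩
      rw [mem_pm] at hc
      obtain ⟨h0, h1, h2⟩ := hc
      push_cast at h1 h2
      refine ⟨⟨mul_ne_zero hr0.ne' h0, ?_, ?_⟩, Dvd.intro _ rfl⟩
      · have h3 : -c ≤ (n : ℤ) / r := by linarith
        rw [Int.le_ediv_iff_mul_le hr0] at h3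
        linarith
      · rw [Int.le_ediv_iff_mul_le hr0] at h2
        linarith
  have h2 : ((pm n).filter (fun x => (r : ℤ) ∣ x)).card = 2 * (n / r) := by
    rw [h1, Finset.card_image_of_injective, d3_card]
    intro a b hab
    exact mul_left_cancel₀ hr0.ne' hab
  have h3 := Finset.card_filter_add_card_filter_not (s := pm n) (fun x => (r : ℤ) ∣ x)
  rw [d3_card, h2] at h3
  omega

/-- CHUNK D3, part 3: sums over `pm n` of functions of the absolute value. -/
theorem d3_sum (n : ℕ) (f : ℕ → ℕ) :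
    ∑ x ∈ pm n, f x.natAbs = 2 * ∑ x ∈ Finset.Icc 1 n, f x := by
  induction n with
  | zero =>
    have h1 : pm 0 = ∅ := by
      rw [← Finset.card_eq_zero, d3_card]
    rw [h1]
    simp
  | succ n ih =>
    have h1 : pm (n + 1) = insert ((n : ℤ) + 1) (insert (-((n : ℤ) + 1)) (pm n)) := by
      ext x
      simp only [Finset.mem_insert, mem_pm]
      push_cast
      omega
    rw [h1, Finset.sum_insert, Finset.sum_insert, ih, Finset.sum_Icc_succ_top (by omega)]
    · have e1 : ((n : ℤ) + 1).natAbs = n + 1 := by omega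
      have e2 : (-((n : ℤ) + 1)).natAbs = n + 1 := by omega
      rw [e1, e2]
      ring
    · rw [mem_pm]
      omega
    · rw [Finset.mem_insert, mem_pm]
      omega

/-- CHUNK D3, part 4: the number of indices.
Proof.  `idx` is the disjoint union of the part `σ = 0`, which is
`range J ×ˢ {0} ×ˢ pm T ×ˢ (pm h).filter (r ∤ ·)`, and the part `σ = 1`, which is
`range J ×ˢ {1} ×ˢ (pm T).filter (r ∤ ·) ×ˢ pm h`. -/
theorem d3_idx_card (r h T J : ℕ) (hr : 1 ≤ r) :
    (idx r h T J).card =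
      J * ((2 * T) * (2 * h - 2 * (h / r)) + (2 * T - 2 * (T / r)) * (2 * h)) := by
  have h1 : idx r h T J =
      (Finset.range J ×ˢ (({0} : Finset ℕ) ×ˢ (pm T ×ˢ (pm h).filter (fun x => ¬ (r : ℤ) ∣ x)))) ∪
      (Finset.range J ×ˢ (({1} : Finset ℕ) ×ˢ ((pm T).filter (fun x => ¬ (r : ℤ) ∣ x) ×ˢ pm h))) := by
    ext ⟨j, σ, X, Y⟩
    simp only [idx, Finset.mem_filter, Finset.mem_product, Finset.mem_union, Finset.mem_range,
      Finset.mem_singleton]
    constructor
    · rintro ⟨⟨h1, h2, h3, h4⟩, h5, h6⟩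
      have h7 : σ = 0 ∨ σ = 1 := by omega
      rcases h7 with rfl | rfl
      · exact Or.inl ⟨h1, rfl, h3, h4, h5 rfl⟩
      · exact Or.inr ⟨h1, rfl, ⟨h3, h6 rfl⟩, h4⟩
    · rintro (⟨h1, rfl, h3, h4, h5⟩ | ⟨h1, rfl, ⟨h3, h5⟩, h4⟩)
      · exact ⟨⟨h1, by omega, h3, h4⟩, fun _ => h5, fun h => by omega⟩
      · exact ⟨⟨h1, by omega, h3, h4⟩, fun h => by omega, fun _ => h5⟩
  rw [h1, Finset.card_union_of_disjoint]
  · simp only [Finset.card_product, Finset.card_range, Finset.card_singleton, d3_card,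
      d3_card_not_dvd _ _ hr]
    ring
  · rw [Finset.disjoint_left]
    rintro ⟨j, σ, X, Y⟩ hp hp'
    simp only [Finset.mem_product, Finset.mem_singleton] at hp hp'
    omega

end Pool.Agent.H73F
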