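import Mathlib
import Pool.Agent.Lib.H73F.D3

set_option autoImplicit false

namespace Pool.Agent.H73F

theorem d5_mem {r h T J j σ : ℕ} {X Y : ℤ} (hp : (j, σ, X, Y) ∈ idx r h T J) :
    j < J ∧ (σ = 0 ∨ σ = 1) ∧ X ∈ pm T ∧ Y ∈ pm h := by
  rw [idx, Finset.mem_filter, Finset.mem_product, Finset.mem_product, Finset.mem_product] at hp
  simp only [Finset.mem_range] at hp
  obtain ⟨⟨h1, h2, h3, h4⟩, h5, h6⟩ := hp
  exact ⟨h1, by omega, h3, h4⟩

theorem d5_gauss (s h : ℕ) : 2 * ∑ x ∈ Finset.Icc 1 h, s * x = s * (h * (h + 1)) := by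
  induction h with
  | zero => simp
  | succ n ih =>
    rw [Finset.sum_Icc_succ_top (by omega), mul_add, ih]
    ring

theorem d5_bi (n m : ℕ) (R : ℕ → Finset ℤ) (S : Finset (ℕ × ℤ × ℤ))
    (hS : ∀ i x c, (i, x, c) ∈ S → i < n ∧ x ∈ pm m ∧ c ∈ R x.natAbs) :
    S.card ≤ n * (2 * ∑ x ∈ Finset.Icc 1 m, (R x).card) := by
  have h1 : S ⊆ (Finset.range n ×ˢ pm m).biUnion
      (fun q => (R q.2.natAbs).image (fun c => (q.1, q.2, c))) := by
    rintro ⟨i, x, c⟩ hp
    obtain ⟨h1, h2, h3⟩ := hS i x c hp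
    rw [Finset.mem_biUnion]
    refine ⟨(i, x), ?_, ?_⟩
    · rw [Finset.mem_product, Finset.mem_range]
      exact ⟨h1, h2⟩
    · exact Finset.mem_image_of_mem _ h3
  refine (Finset.card_le_card h1).trans (Finset.card_biUnion_le.trans ?_)
  calc ∑ q ∈ Finset.range n ×ˢ pm m, ((R q.2.natAbs).image (fun c => (q.1, q.2, c))).card
      ≤ ∑ q ∈ Finset.range n ×ˢ pm m, (R q.2.natAbs).card :=
        Finset.sum_le_sum fun q _ => Finset.card_image_le
    _ = n * (2 * ∑ x ∈ Finset.Icc 1 m, (R x).card) := by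
      rw [Finset.sum_product]
      simp only
      rw [Finset.sum_const, Finset.card_range, smul_eq_mul, d3_sum m (fun x => (R x).card)]

/-- CHUNK D5 (M), part 1: the number of labels `labA` is at most `J s h (h + 1)`.
Proof.  A label is a triple `(j, Y, c)` with `j < J`, `Y ∈ pm h` and `0 ≤ c < s |Y|`
(`Int.emod_nonneg`, `Int.emod_lt_abs`-like facts for the nonzero modulus `s Y`).  So the image is
contained in the `biUnion` over `(j, Y) ∈ range J ×ˢ pm h` of the sets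
`{(j, Y, c) : c ∈ Ico 0 (s |Y|)}`, and its cardinality is at most
`∑_{j < J} ∑_{Y ∈ pm h} s |Y| = J * (2 * ∑_{y = 1}^{h} s y) = J s h (h + 1)` (`d3_sum`). -/
theorem d5_imageA (s r h T J : ℕ) (hs : 1 ≤ s) :
    ((idx r h T J).image (labA s r)).card ≤ J * (s * (h * (h + 1))) := by
  have h1 := d5_bi J h (fun x => Finset.Ico (0 : ℤ) ((s * x : ℕ) : ℤ)) ((idx r h T J).image (labA s r)) (by
    intro i x c hp
    rw [Finset.mem_image] at hp
    obtain ⟨⟨j, σ, X, Y⟩, hq, he⟩ := hp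
    obtain ⟨h1, _, _, h4⟩ := d5_mem hq
    simp only [labA, Prod.mk.injEq] at he
    obtain ⟨rfl, rfl, rfl⟩ := he
    refine ⟨h1, h4, ?_⟩
    have hY0 := ((mem_pm _ _).1 h4).1
    have hs0 : (s : ℤ) ≠ 0 := by exact_mod_cast (by omega : s ≠ 0)
    have hne : (s : ℤ) * Y ≠ 0 := mul_ne_zero hs0 hY0
    rw [Finset.mem_Ico]
    refine ⟨Int.emod_nonneg _ hne, ?_⟩
    have h5 := Int.emod_lt_abs ((r : ℤ) ^ (1 - σ) * X) hne
    rw [abs_mul, Nat.abs_cast] at h5
    push_cast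
    exact h5)
  have h2 : ∀ x : ℕ, (Finset.Ico (0 : ℤ) ((s * x : ℕ) : ℤ)).card = s * x := by
    intro x
    rw [Int.card_Ico]
    omega
  simp only [h2] at h1
  rwa [d5_gauss] at h1

/-- CHUNK D5, part 2: the number of labels `labB`.
Proof.  A label is a triple `(i, X, c)` with `i = j + σ < J + 1`, `X ∈ pm T` and
`c = Y % X` or `c = (r Y) % X`, `Y ∈ pm h`; and `c % X = c % |X|` (`Int.emod_neg`,
`Int.emod_abs`), so `c ∈ resB r h |X|`.  Hence the image is contained in the `biUnion` over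
`(i, X)` of the sets `{(i, X, c) : c ∈ resB r h X.natAbs}`, and its cardinality is at most
`(J + 1) ∑_{X ∈ pm T} (resB r h |X|).card` (then `d3_sum`). -/
theorem d5_imageB (r h T J : ℕ) :
    ((idx r h T J).image (labB r)).card ≤
      (J + 1) * (2 * ∑ x ∈ Finset.Icc 1 T, (resB r h x).card) := by
  refine d5_bi (J + 1) T (fun x => resB r h x) ((idx r h T J).image (labB r)) ?_
  intro i x c hp
  rw [Finset.mem_image] at hp
  obtain ⟨⟨j, σ, X, Y⟩, hq, he⟩ := hp
  obtain ⟨h1, h2, h3, h4⟩ := d5_mem hq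
  simp only [labB, Prod.mk.injEq] at he
  obtain ⟨rfl, rfl, rfl⟩ := he
  refine ⟨by omega, h3, ?_⟩
  unfold resB
  have h5 : ∀ a : ℤ, a % (X.natAbs : ℤ) = a % X := by
    intro a
    rw [Int.natCast_natAbs, Int.emod_abs]
  simp only [h5]
  rw [Finset.mem_union, Finset.mem_image, Finset.mem_image]
  rcases h2 with rfl | rfl
  · left
    exact ⟨Y, h4, by simp⟩
  · right
    exact ⟨Y, h4, by simp⟩

end Pool.Agent.H73F
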