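import Mathlib

set_option autoImplicit false

namespace Pool.Agent.H73F

/-- CHUNK F1 (S/M).  The main term is positive: if `r ≥ 4` and `2 exp (s / 8) ≤ r`, i.e.
`s ≤ 8 log (r / 2)`, then `6 - s + 8 / r + 8 (1 - 1 / r) log (r / 4) > 0`.
Proof.  `log (r / 4) = log (r / 2) - log 2`, so the left side is at least
`6 - 8 log 2 + (8 / r) (1 - log (r / 4))`.  With `x = r / 4` and the tangent inequality
`log x ≤ 1 + x / exp 2` (`Real.log_le_sub_one_of_pos` for `x / exp 2`) it is at least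
`6 - 8 log 2 - 2 / exp 2`, and `log 2 < 0.6931471808` (`Real.log_two_lt_d9`), `exp 2 ≥ 5`
(`exp 1 > 2.7182818283`, `Real.exp_one_gt_d9`), so it is at least `6 - 5.546 - 0.4 > 0`. -/
theorem f1_main_pos (s r : ℕ) (hr : 4 ≤ r) (h : 2 * Real.exp ((s : ℝ) / 8) ≤ (r : ℝ)) :
    0 < 6 - (s : ℝ) + 8 / r + 8 * (1 - 1 / (r : ℝ)) * Real.log ((r : ℝ) / 4) := by
  have hr' : (4 : ℝ) ≤ r := by exact_mod_cast hr
  have hr0 : (0 : ℝ) < r := by linarith
  have h1 : (s : ℝ) / 8 ≤ Real.log ((r : ℝ) / 4) + Real.log 2 := by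
    rw [← Real.log_mul (by positivity) (by positivity), Real.le_log_iff_exp_le (by positivity)]
    linarith
  have hl2 := Real.log_two_lt_d9
  have he2 : (5 : ℝ) ≤ Real.exp 2 := by
    have h3 : Real.exp 2 = Real.exp 1 * Real.exp 1 := by
      rw [← Real.exp_add]
      norm_num
    have h4 := Real.exp_one_gt_d9
    rw [h3]
    nlinarith
  have hlog : Real.log ((r : ℝ) / 4) ≤ 1 + (r : ℝ) / 20 := by
    have h3 := Real.log_le_sub_one_of_pos (show 0 < (r : ℝ) / 4 / Real.exp 2 by positivity)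
    rw [Real.log_div (by positivity) (by positivity), Real.log_exp] at h3
    have h4 : (r : ℝ) / 4 / Real.exp 2 ≤ r / 4 / 5 :=
      div_le_div_of_nonneg_left (by positivity) (by norm_num) he2
    have h5 : (r : ℝ) / 4 / 5 = r / 20 := by ring
    linarith
  set ℓ := Real.log ((r : ℝ) / 4) with hℓ
  have h2 : 8 / (r : ℝ) * (1 - ℓ) ≥ -(2 / 5) := by
    have h3 : 8 / (r : ℝ) * (1 - ℓ) ≥ 8 / (r : ℝ) * (-((r : ℝ) / 20)) := by
      apply mul_le_mul_of_nonneg_left _ (by positivity)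
      linarith
    have h4 : 8 / (r : ℝ) * (-((r : ℝ) / 20)) = -(2 / 5) := by
      field_simp
      norm_num
    linarith
  have h3 : 6 - (s : ℝ) + 8 / r + 8 * (1 - 1 / (r : ℝ)) * ℓ =
      6 - (s : ℝ) + 8 * ℓ + 8 / (r : ℝ) * (1 - ℓ) := by
    ring
  rw [h3]
  linarith

end Pool.Agent.H73F
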