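import Mathlib

set_option autoImplicit false

namespace Pool.Agent.H73F

/-- CHUNK F2 (M).  The choice of the parameters: for some `l ≥ 1`, with `k = 2 l`, `h = r k`,
`T = r h / 2 = r ^ 2 l`, `L = log (r / 4) - 1 / (2 h)`, the final inequality holds.
Proof.  Divide by `k ^ 2 = 4 l ^ 2`: the left side minus the right side is
`k ^ 2 r ^ 2 G - k (s r + 2 r + 4 r (r - 1) log (r / 4) + 4 (r - 1)) + (constant)` with
`G = 6 - s + 8 / r + 8 (1 - 1 / r) log (r / 4) > 0` (`hG`), so it is positive for large `k`.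
(The constant: `4 (2 k - 1) (r - 1) h / (2 h) = 4 k (r - 1) - 2 (r - 1)`.)  For example take
`k > (s r + 2 r + 4 r (r - 1) log (r / 4) + 4 (r - 1)) / (r ^ 2 G)` (Archimedes). -/
theorem f2_choice (s r : ℕ) (hr : 4 ≤ r)
    (hG : 0 < 6 - (s : ℝ) + 8 / r + 8 * (1 - 1 / (r : ℝ)) * Real.log ((r : ℝ) / 4)) :
    ∃ l : ℕ, 1 ≤ l ∧ ∀ k h T L : ℝ, k = 2 * l → h = r * k → T = r * h / 2 →
      L = Real.log ((r : ℝ) / 4) - 1 / (2 * h) →
      s * (h * (h + 1)) + 2 * (h * (2 * h + 1) + (T - 2 * h) * (4 * h - 2 * k)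
        - 2 * (2 * k - 1) * ((r - 1) * h * L - (T - 2 * h))) < 8 * T * (h - k) := by
  have hr' : (4 : ℝ) ≤ r := by exact_mod_cast hr
  set ℓ := Real.log ((r : ℝ) / 4) with hℓ
  set G : ℝ := 6 - (s : ℝ) + 8 / r + 8 * (1 - 1 / (r : ℝ)) * ℓ with hGdef
  set C : ℝ := s * r + 2 * r + 4 * r * (r - 1) * ℓ - 2 * r * (r - 4) + 4 * (r - 1) with hC
  obtain ⟨n, hn⟩ := exists_nat_gt (C / (r ^ 2 * G))
  refine ⟨n + 1, by omega, ?_⟩
  intro k h T L hk hh hT hL
  have hr0 : (0 : ℝ) < r := by linarith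
  have hn0 : (0 : ℝ) ≤ n := Nat.cast_nonneg n
  have hk0 : 0 < k := by
    rw [hk]
    push_cast
    linarith
  have hkn : (n : ℝ) < k := by
    rw [hk]
    push_cast
    linarith
  have hpos : 0 < (r : ℝ) ^ 2 * G := by positivity
  have h1 : C < k * (r ^ 2 * G) := by
    rw [div_lt_iff₀ hpos] at hn
    nlinarith
  have key : 8 * T * (h - k) - (s * (h * (h + 1)) + 2 * (h * (2 * h + 1) + (T - 2 * h) * (4 * h - 2 * k)
        - 2 * (2 * k - 1) * ((r - 1) * h * L - (T - 2 * h)))) =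
      k * (k * (r ^ 2 * G) - C) + 2 * (r - 1) := by
    rw [hT, hL, hh, hC, hGdef]
    field_simp
    ring
  have h2 : 0 < k * (k * (r ^ 2 * G) - C) := by
    apply mul_pos hk0
    linarith
  linarith

end Pool.Agent.H73F
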