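import Mathlib
import Pool.Agent.Lib.H73F.D0

set_option autoImplicit false

namespace Pool.Agent.H73F

theorem d1_le {r : ℕ} (hr : 2 ≤ r) {X X' : ℤ} {a a' : ℕ} (hX : ¬ (r : ℤ) ∣ X)
    (h : X * (r : ℤ) ^ a' = X' * (r : ℤ) ^ a) : a ≤ a' := by
  by_contra hlt
  rw [not_le] at hlt
  obtain ⟨b, rfl⟩ : ∃ b, a = a' + (b + 1) := ⟨a - a' - 1, by omega⟩
  apply hX
  have h0 : (r : ℤ) ^ a' ≠ 0 := by
    apply pow_ne_zero
    exact_mod_cast (by omega : r ≠ 0)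
  have h1 : X = X' * (r : ℤ) ^ (b + 1) := by
    refine mul_right_cancel₀ h0 ?_
    rw [h, pow_add]
    ring
  rw [h1, pow_succ]
  exact ⟨X' * (r : ℤ) ^ b, by ring⟩

theorem d1_cross {r : ℕ} (hr : 2 ≤ r) {X X' : ℤ} {a a' : ℕ}
    (h : (X : ℚ) / (r : ℚ) ^ a = (X' : ℚ) / (r : ℚ) ^ a') :
    X * (r : ℤ) ^ a' = X' * (r : ℤ) ^ a := by
  have h0 : (r : ℚ) ≠ 0 := by exact_mod_cast (by omega : r ≠ 0)
  rw [div_eq_div_iff (pow_ne_zero _ h0) (pow_ne_zero _ h0)] at h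
  exact_mod_cast h

theorem d1_cancel {r : ℕ} (hr : 2 ≤ r) {X X' : ℤ} {a : ℕ}
    (h : X * (r : ℤ) ^ a = X' * (r : ℤ) ^ a) : X = X' := by
  have h0 : (r : ℤ) ^ a ≠ 0 := by
    apply pow_ne_zero
    exact_mod_cast (by omega : r ≠ 0)
  exact mul_right_cancel₀ h0 h

theorem d1_mem {r h T J j σ : ℕ} {X Y : ℤ} (hp : (j, σ, X, Y) ∈ idx r h T J) :
    j < J ∧ (σ = 0 ∨ σ = 1) ∧ X ∈ pm T ∧ Y ∈ pm h ∧ (σ = 0 → ¬ (r : ℤ) ∣ Y) ∧
      (σ = 1 → ¬ (r : ℤ) ∣ X) := by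
  rw [idx, Finset.mem_filter, Finset.mem_product, Finset.mem_product, Finset.mem_product] at hp
  simp only [Finset.mem_range] at hp
  obtain ⟨⟨h1, h2, h3, h4⟩, h5, h6⟩ := hp
  exact ⟨h1, by omega, h3, h4, h5, h6⟩

/-- CHUNK D1 (M).  The vectors with indices in `idx` are pairwise distinct.
Proof.  Let `(j, σ, X, Y)` and `(j', σ', X', Y')` have the same vector:
`X / r ^ (j + σ) = X' / r ^ (j' + σ')` and `Y / r ^ j = Y' / r ^ j'` (cross-multiply to equations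
between integers: `X * r ^ (j' + σ') = X' * r ^ (j + σ)`, `Y * r ^ j' = Y' * r ^ j`).
Case `σ = σ' = 0`: if `j < j'` then `Y' = Y * r ^ (j' - j)` is divisible by `r`, a contradiction
to `r ∤ Y'`; symmetric if `j > j'`; so `j = j'` and then `X = X'`, `Y = Y'`.
Case `σ = σ' = 1`: the same with `X`.
Case `σ = 0`, `σ' = 1`: from `r ∤ Y` and `Y * r ^ j' = Y' * r ^ j` we get `j ≤ j'` (otherwise
`Y = Y' * r ^ (j - j')`), and then `X' = X * r ^ (j' + 1 - j)` is divisible by `r`, a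
contradiction to `r ∤ X'`.  The case `σ = 1`, `σ' = 0` is symmetric. -/
theorem d1_injOn (r h T J : ℕ) (hr : 2 ≤ r) : Set.InjOn (vec r) (idx r h T J : Set (ℕ × ℕ × ℤ × ℤ)) := by
  rintro ⟨j, σ, X, Y⟩ hp ⟨j', σ', X', Y'⟩ hp' he
  rw [Finset.mem_coe] at hp hp'
  obtain ⟨_, hσ, _, _, h0, h1⟩ := d1_mem hp
  obtain ⟨_, hσ', _, _, h0', h1'⟩ := d1_mem hp'
  have eX := d1_cross hr (congrArg Prod.fst he)
  have eY := d1_cross hr (congrArg Prod.snd he)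
  simp only at eX eY
  rcases hσ with rfl | rfl <;> rcases hσ' with rfl | rfl
  · have h2 := d1_le hr (h0 rfl) eY
    have h3 := d1_le hr (h0' rfl) eY.symm
    obtain rfl : j = j' := le_antisymm h2 h3
    rw [d1_cancel hr eX, d1_cancel hr eY]
  · have h2 := d1_le hr (h0 rfl) eY
    have h3 := d1_le hr (h1' rfl) eX.symm
    omega
  · have h2 := d1_le hr (h1 rfl) eX
    have h3 := d1_le hr (h0' rfl) eY.symm
    omega
  · have h2 := d1_le hr (h1 rfl) eX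
    have h3 := d1_le hr (h1' rfl) eX.symm
    obtain rfl : j = j' := by omega
    rw [d1_cancel hr eX, d1_cancel hr eY]

end Pool.Agent.H73F
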