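import Mathlib
import Pool.Agent.Lib.H73F.D0

set_option autoImplicit false

namespace Pool.Agent.H73F

theorem d2_mem {r h T J j σ : ℕ} {X Y : ℤ} (hp : (j, σ, X, Y) ∈ idx r h T J) :
    σ = 0 ∨ σ = 1 := by
  rw [idx, Finset.mem_filter, Finset.mem_product, Finset.mem_product, Finset.mem_product] at hp
  simp only [Finset.mem_range] at hp
  omega

/-- CHUNK D2 (S/M), first part.  Equal labels `labA` mean: same orbit of `[[1, s/r], [0, 1]]`.
Proof.  `j = j'`, `Y = Y'` and `r ^ (1 - σ) X ≡ r ^ (1 - σ') X'` modulo `s Y`, so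
`r ^ (1 - σ') X' = r ^ (1 - σ) X + m s Y` (`Int.emod_emod_of_dvd`, `Int.ModEq.dvd`).  Divide by
`r ^ (j + 1)`; note `r ^ (1 - σ) / r ^ (j + 1) = 1 / r ^ (j + σ)` for `σ ∈ {0, 1}`. -/
theorem d2_labA (s r h T J : ℕ) (hr : 2 ≤ r) (p p' : ℕ × ℕ × ℤ × ℤ) (hp : p ∈ idx r h T J)
    (hp' : p' ∈ idx r h T J) (he : labA s r p = labA s r p') :
    (vec r p').2 = (vec r p).2 ∧
      ∃ m : ℤ, (vec r p').1 = (vec r p).1 + (m : ℚ) * ((s : ℚ) / (r : ℚ)) * (vec r p).2 := by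
  obtain ⟨j, σ, X, Y⟩ := p
  obtain ⟨j', σ', X', Y'⟩ := p'
  have hσ := d2_mem hp
  have hσ' := d2_mem hp'
  have h0 : (r : ℚ) ≠ 0 := by exact_mod_cast (by omega : r ≠ 0)
  simp only [labA, Prod.mk.injEq] at he
  obtain ⟨rfl, rfl, he⟩ := he
  refine ⟨rfl, ?_⟩
  obtain ⟨m, hm⟩ : (s : ℤ) * Y ∣ (r : ℤ) ^ (1 - σ') * X' - (r : ℤ) ^ (1 - σ) * X :=
    (Int.ModEq.dvd he)
  refine ⟨m, ?_⟩
  have hm' : (r : ℚ) ^ (1 - σ') * X' - (r : ℚ) ^ (1 - σ) * X = s * Y * m := by exact_mod_cast hm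
  simp only [vec]
  rcases hσ with rfl | rfl <;> rcases hσ' with rfl | rfl
  · simp only [add_zero, Nat.sub_zero, pow_one] at *
    have h2 : (r : ℚ) * X' = r * X + s * Y * m := by linarith
    field_simp
    linarith
  · simp only [add_zero, Nat.sub_zero, pow_one, Nat.sub_self, pow_zero, one_mul] at *
    rw [pow_succ]
    field_simp
    linarith
  · simp only [add_zero, Nat.sub_zero, pow_one, Nat.sub_self, pow_zero, one_mul] at *
    rw [pow_succ]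
    field_simp
    linarith
  · simp only [Nat.sub_self, pow_zero, one_mul] at *
    rw [pow_succ]
    field_simp
    linarith

/-- CHUNK D2, second part.  Equal labels `labB` mean: same orbit of `[[1, 0], [1, 1]]`.
Proof.  `j + σ = j' + σ'`, `X = X'`, `r ^ σ' Y' = r ^ σ Y + m X`; divide by `r ^ (j + σ)`. -/
theorem d2_labB (r h T J : ℕ) (hr : 2 ≤ r) (p p' : ℕ × ℕ × ℤ × ℤ) (hp : p ∈ idx r h T J)
    (hp' : p' ∈ idx r h T J) (he : labB r p = labB r p') :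
    (vec r p').1 = (vec r p).1 ∧ ∃ m : ℤ, (vec r p').2 = (vec r p).2 + (m : ℚ) * (vec r p).1 := by
  obtain ⟨j, σ, X, Y⟩ := p
  obtain ⟨j', σ', X', Y'⟩ := p'
  have hσ := d2_mem hp
  have hσ' := d2_mem hp'
  have h0 : (r : ℚ) ≠ 0 := by exact_mod_cast (by omega : r ≠ 0)
  simp only [labB, Prod.mk.injEq] at he
  obtain ⟨hj, rfl, he⟩ := he
  obtain ⟨m, hm⟩ : X ∣ (r : ℤ) ^ σ' * Y' - (r : ℤ) ^ σ * Y := (Int.ModEq.dvd he)
  have hm' : (r : ℚ) ^ σ' * Y' - (r : ℚ) ^ σ * Y = X * m := by exact_mod_cast hm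
  refine ⟨by simp only [vec]; rw [hj], m, ?_⟩
  simp only [vec]
  have e1 : (Y' : ℚ) / (r : ℚ) ^ j' = (r : ℚ) ^ σ' * Y' / (r : ℚ) ^ (j' + σ') := by
    rw [pow_add]
    field_simp
  have e2 : (Y : ℚ) / (r : ℚ) ^ j = (r : ℚ) ^ σ * Y / (r : ℚ) ^ (j + σ) := by
    rw [pow_add]
    field_simp
  rw [e1, e2, ← hj, ← mul_div_assoc, ← add_div]
  congr 1
  linarith

end Pool.Agent.H73F
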