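import Mathlib
import Pool.Agent.Lib.H73F.C4
import Pool.Agent.Lib.H73F.D1
import Pool.Agent.Lib.H73F.D2
import Pool.Agent.Lib.H73F.D5

set_option autoImplicit false

namespace Pool.Agent.H73F

open Pool.Agent.H78.Farbman

/-- CHUNK G1 (S/M).  The inequality for one rectangle, if `s / r` is not a relation number.
Proof.  `c4_crit` for `P = idx r h T J`, `v = vec r`, `α = labA s r`, `β = labB r` (with
`d1_injOn`, `d2_labA`, `d2_labB`; the vectors are nonzero because `Y ≠ 0`), `d3_idx_card`,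
`d5_imageA`, `d5_imageB` give, with `E = (2 T)(2 h - 2 (h / r)) + (2 T - 2 (T / r))(2 h)`,
`A = s h (h + 1)`, `B = 2 ∑_{x = 1}^{T} (resB r h x).card`:
`J E ≤ J A + (J + 1) B` for every `J`.  With `J = B + 1`: if `E ≥ A + B + 1` then
`J (A + B) + J ≤ J (A + B) + B`, a contradiction. -/
theorem g1_rect (s r h T : ℕ) (hs : 1 ≤ s) (hr : 2 ≤ r)
    (hq : ¬ IsRelationNumber ((s : ℚ) / (r : ℚ))) :
    (2 * T) * (2 * h - 2 * (h / r)) + (2 * T - 2 * (T / r)) * (2 * h) ≤
      s * (h * (h + 1)) + 2 * ∑ x ∈ Finset.Icc 1 T, (resB r h x).card := by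
  have key : ∀ J : ℕ, (idx r h T J).card ≤
      ((idx r h T J).image (labA s r)).card + ((idx r h T J).image (labB r)).card := by
    intro J
    have h1 := c4_crit ((s : ℚ) / (r : ℚ)) hq (idx r h T J) (vec r) (by
      rintro ⟨j, σ, X, Y⟩ hp he
      have h2 := congrArg Prod.snd he
      simp only [vec] at h2
      have hr0 : (r : ℚ) ≠ 0 := by exact_mod_cast (by omega : r ≠ 0)
      rw [div_eq_zero_iff] at h2
      rcases h2 with h2 | h2
      · have h3 := (d1_mem hp).2.2.2.1
        rw [mem_pm] at h3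
        exact h3.1 (by exact_mod_cast h2)
      · exact pow_ne_zero _ hr0 h2) (d1_injOn r h T J hr) (labA s r) (labB r)
      (fun p hp p' hp' he => d2_labA s r h T J hr p p' hp hp' he)
      (fun p hp p' hp' he => d2_labB r h T J hr p p' hp hp' he)
    rw [Subsingleton.elim (instDecidableEqProd : DecidableEq (ℕ × ℤ × ℤ))
      (fun a b => Classical.propDecidable (a = b))]
    exact h1
  have key2 : ∀ J : ℕ, J * ((2 * T) * (2 * h - 2 * (h / r)) + (2 * T - 2 * (T / r)) * (2 * h)) ≤
      J * (s * (h * (h + 1))) + (J + 1) * (2 * ∑ x ∈ Finset.Icc 1 T, (resB r h x).card) := by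
    intro J
    rw [← d3_idx_card r h T J (by omega)]
    exact (key J).trans (Nat.add_le_add (d5_imageA s r h T J hs) (d5_imageB r h T J))
  generalize (2 * T) * (2 * h - 2 * (h / r)) + (2 * T - 2 * (T / r)) * (2 * h) = E at *
  generalize s * (h * (h + 1)) = A at *
  generalize 2 * ∑ x ∈ Finset.Icc 1 T, (resB r h x).card = B at *
  by_contra hcon
  rw [not_le] at hcon
  have h1 := key2 (B + 1)
  have h2 : (B + 1) * (A + B + 1) ≤ (B + 1) * E := Nat.mul_le_mul_left _ hcon
  nlinarith

end Pool.Agent.H73F
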