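import Mathlib
import Pool.Agent.Lib.H73F.D3

set_option autoImplicit false

namespace Pool.Agent.H73F

/-- CHUNK E2 (S).  There are at most `x` residues modulo `x`. -/
theorem e2_card_le (r h x : ℕ) (hx : 1 ≤ x) : (resB r h x).card ≤ x := by
  have hx0 : (0 : ℤ) < x := by exact_mod_cast hx
  have h1 : resB r h x ⊆ Finset.Ico (0 : ℤ) x := by
    intro c hc
    rw [resB, Finset.mem_union, Finset.mem_image, Finset.mem_image] at hc
    rw [Finset.mem_Ico]
    rcases hc with ⟨a, _, rfl⟩ | ⟨a, _, rfl⟩
    · exact ⟨Int.emod_nonneg _ hx0.ne', Int.emod_lt_of_pos _ hx0⟩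
    · exact ⟨Int.emod_nonneg _ hx0.ne', Int.emod_lt_of_pos _ hx0⟩
  refine (Finset.card_le_card h1).trans ?_
  rw [Int.card_Ico]
  omega

/-- CHUNK E3 (S).  Coincidences: with `G = {c ∈ pm h : r c mod x` is the residue of an element of
`pm h}` the number of residues is at most `4 h - |G|`.
Proof.  `resB r h x ⊆ (pm h).image (· % x) ∪ (pm h \ G).image (fun c => (r c) % x)`, because the
images of the elements of `G` lie in the first set; use `Finset.card_image_le` and
`(pm h).card = 2 h` (`d3_card`). -/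
theorem e3_card_add (r h x : ℕ) :
    (resB r h x).card + ((pm h).filter (fun c =>
      ((r : ℤ) * c) % (x : ℤ) ∈ (pm h).image (fun c => c % (x : ℤ)))).card ≤ 4 * h := by
  have h1 : resB r h x ⊆ (pm h).image (fun c => c % (x : ℤ)) ∪
      ((pm h).filter (fun c => ¬ ((r : ℤ) * c) % (x : ℤ) ∈
        (pm h).image (fun c => c % (x : ℤ)))).image (fun c => ((r : ℤ) * c) % (x : ℤ)) := by
    intro z hz
    rw [resB, Finset.mem_union] at hz
    rw [Finset.mem_union]
    rcases hz with hz | hz
    · exact Or.inl hz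
    · by_cases h2 : z ∈ (pm h).image (fun c => c % (x : ℤ))
      · exact Or.inl h2
      · right
        obtain ⟨c, hc, rfl⟩ := Finset.mem_image.1 hz
        exact Finset.mem_image_of_mem (fun c => ((r : ℤ) * c) % (x : ℤ)) (Finset.mem_filter.2 ⟨hc, h2⟩)
  have h2 := Finset.card_le_card h1
  have h3 := Finset.card_union_le ((pm h).image (fun c => c % (x : ℤ)))
      (((pm h).filter (fun c => ¬ ((r : ℤ) * c) % (x : ℤ) ∈
        (pm h).image (fun c => c % (x : ℤ)))).image (fun c => ((r : ℤ) * c) % (x : ℤ)))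
  have h4 : ((pm h).image (fun c => c % (x : ℤ))).card ≤ 2 * h := by
    rw [← d3_card h]
    exact Finset.card_image_le
  have h5 : (((pm h).filter (fun c => ¬ ((r : ℤ) * c) % (x : ℤ) ∈
        (pm h).image (fun c => c % (x : ℤ)))).image (fun c => ((r : ℤ) * c) % (x : ℤ))).card ≤
      ((pm h).filter (fun c => ¬ ((r : ℤ) * c) % (x : ℤ) ∈
        (pm h).image (fun c => c % (x : ℤ)))).card := Finset.card_image_le
  have h6 := Finset.card_filter_add_card_filter_not (s := pm h)
    (fun c => ((r : ℤ) * c) % (x : ℤ) ∈ (pm h).image (fun c => c % (x : ℤ)))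
  rw [d3_card] at h6
  omega

end Pool.Agent.H73F
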