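import Mathlib
import Pool.Agent.Lib.H73F.D3

set_option autoImplicit false

namespace Pool.Agent.H73F

/-- the window number `i` -/
noncomputable def e4W (r h x : ℕ) (i : ℤ) : Finset ℤ :=
  (pm h).filter (fun c => |(r : ℤ) * c - i * x| ≤ h ∧ (r : ℤ) * c ≠ i * x)

theorem e4_mem (r h x : ℕ) (i c : ℤ) : c ∈ e4W r h x i ↔
    c ∈ pm h ∧ |(r : ℤ) * c - i * x| ≤ h ∧ (r : ℤ) * c ≠ i * x := by
  rw [e4W, Finset.mem_filter]

theorem e4_zero (r h x k : ℕ) (hr : 2 ≤ r) (hh : h = r * k) :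
    2 * k ≤ (e4W r h x 0).card := by
  rw [← d3_card k]
  apply Finset.card_le_card
  intro c hc
  rw [mem_pm] at hc
  obtain ⟨h0, h1, h2⟩ := hc
  have hr' : (2 : ℤ) ≤ r := by exact_mod_cast hr
  have hh' : (h : ℤ) = r * k := by exact_mod_cast hh
  have hk0 : (0 : ℤ) ≤ k := by positivity
  have hkh : (k : ℤ) ≤ h := by
    rw [hh']
    nlinarith
  rw [e4_mem, mem_pm]
  refine ⟨⟨h0, by linarith, by linarith⟩, ?_, ?_⟩
  · rw [zero_mul, sub_zero, abs_le, hh']
    constructor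
    · nlinarith
    · nlinarith
  · rw [zero_mul]
    exact mul_ne_zero (by linarith) h0

theorem e4_win (r h x k : ℕ) (hr : 2 ≤ r) (hk : 1 ≤ k) (hh : h = r * k)
    (hx : 2 * h < x) (i : ℤ) (hi : i ∈ pm ((r - 1) * h / x)) :
    2 * k - 1 ≤ (e4W r h x i).card := by
  rw [mem_pm] at hi
  obtain ⟨hi0, hi1, hi2⟩ := hi
  have hr' : (2 : ℤ) ≤ r := by exact_mod_cast hr
  have hh' : (h : ℤ) = r * k := by exact_mod_cast hh
  have hk' : (1 : ℤ) ≤ k := by exact_mod_cast hk
  have hx' : 2 * (h : ℤ) < x := by exact_mod_cast hx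
  have hh0 : (0 : ℤ) < h := by
    rw [hh']
    positivity
  have hx0 : (0 : ℤ) < x := by linarith
  have hm : (((r - 1) * h / x : ℕ) : ℤ) * x ≤ (r - 1) * h := by
    have h1 : (r - 1) * h / x * x ≤ (r - 1) * h := Nat.div_mul_le_self _ _
    have h2 : (((r - 1) * h / x * x : ℕ) : ℤ) ≤ (((r - 1) * h : ℕ) : ℤ) := by exact_mod_cast h1
    have h3 : ((r - 1 : ℕ) : ℤ) = (r : ℤ) - 1 := by
      have : 1 ≤ r := by omega
      push_cast [this]
      ring
    rw [Nat.cast_mul, Nat.cast_mul, h3] at h2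
    exact h2
  generalize (((r - 1) * h / x : ℕ) : ℤ) = m at *
  have hix1 : -((r - 1) * h : ℤ) ≤ i * x := by nlinarith
  have hix2 : i * x ≤ ((r - 1) * h : ℤ) := by nlinarith
  set q : ℤ := i * x / r with hq
  have hr0 : (0 : ℤ) < r := by linarith
  have hq1 : q * r ≤ i * x := Int.ediv_mul_le _ hr0.ne'
  have hq2 : i * x < (q + 1) * r := by
    have := Int.lt_ediv_add_one_mul_self (i * x) hr0
    exact this
  have hsub : (Finset.Ioc (q - k) (q + k)).filter (fun c => ¬ (r : ℤ) * c = i * x) ⊆ e4W r h x i := by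
    intro c hc
    rw [Finset.mem_filter, Finset.mem_Ioc] at hc
    obtain ⟨⟨hc1, hc2⟩, hc3⟩ := hc
    have hc1' : q - k + 1 ≤ c := by omega
    have h1 : (r : ℤ) * c ≤ i * x + h := by
      rw [hh']
      nlinarith
    have h2 : i * x - h ≤ (r : ℤ) * c := by
      rw [hh']
      nlinarith
    rw [e4_mem, mem_pm]
    refine ⟨⟨?_, ?_, ?_⟩, ?_, hc3⟩
    · rintro rfl
      rw [mul_zero] at h1 h2
      rcases lt_or_gt_of_ne hi0 with h3 | h3
      · have h4 : i ≤ -1 := by omega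
        nlinarith
      · have h4 : 1 ≤ i := by omega
        nlinarith
    · have h3 : (r : ℤ) * (-h) ≤ r * c := by nlinarith
      exact le_of_mul_le_mul_left h3 hr0
    · have h3 : (r : ℤ) * c ≤ r * h := by nlinarith
      exact le_of_mul_le_mul_left h3 hr0
    · rw [abs_le]
      constructor
      · linarith
      · linarith
  refine le_trans ?_ (Finset.card_le_card hsub)
  have h1 := Finset.card_filter_add_card_filter_not (s := Finset.Ioc (q - k) (q + k))
    (fun c => (r : ℤ) * c = i * x)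
  have h2 : ((Finset.Ioc (q - k) (q + k)).filter (fun c => (r : ℤ) * c = i * x)).card ≤ 1 := by
    rw [Finset.card_le_one]
    intro a ha b hb
    rw [Finset.mem_filter] at ha hb
    exact mul_left_cancel₀ hr0.ne' (ha.2.trans hb.2.symm)
  rw [Int.card_Ioc] at h1
  omega

/-- CHUNK E4 (M).  The number of coincidences: `h = r k`, `2 h < x`.
Proof.  Let `m = (r - 1) h / x` (natural number division), so `m x ≤ (r - 1) h`.  For an integer
`i` with `|i| ≤ m` put `W_i = {c ∈ pm h : |r c - i x| ≤ h, r c ≠ i x}`.  Every `c ∈ W_i` is a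
coincidence: `c' = r c - i x ∈ pm h` and `(r c) % x = c' % x`.  The sets `W_i` are pairwise
disjoint: `c ∈ W_i ∩ W_{i'}` implies `|i - i'| x ≤ 2 h < x`.  `W_0` contains `pm k` (`2 k`
elements; `|r c| ≤ r k = h`, and `r c ≠ 0`).  For `i ≠ 0` let `q = ⌊i x / r⌋`; the `2 k` integers
`c` with `q - k < c ≤ q + k` satisfy `|r c - i x| ≤ r k = h`; therefore
`|r c| ≤ h + |i| x ≤ h + (r - 1) h = r h`, `|c| ≤ h`, and `c ≠ 0` because
`|i x| ≥ x > 2 h`; at most one of them has `r c = i x`.  So `W_i` has at least `2 k - 1` elements.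
The total is at least `2 k + 2 m (2 k - 1)`. -/
theorem e4_coincidences (r h x k : ℕ) (hr : 2 ≤ r) (hk : 1 ≤ k) (hh : h = r * k)
    (hx : 2 * h < x) :
    2 * k + 2 * ((r - 1) * h / x) * (2 * k - 1) ≤ ((pm h).filter (fun c =>
      ((r : ℤ) * c) % (x : ℤ) ∈ (pm h).image (fun c => c % (x : ℤ)))).card := by
  have hx' : 2 * (h : ℤ) < x := by exact_mod_cast hx
  have hh0 : (0 : ℤ) ≤ h := by positivity
  set m : ℕ := (r - 1) * h / x with hm
  have h0m : (0 : ℤ) ∉ pm m := by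
    rw [mem_pm]
    exact fun h => h.1 rfl
  have hdis : ∀ i ∈ insert (0 : ℤ) (pm m), ∀ i' ∈ insert (0 : ℤ) (pm m), i ≠ i' →
      Disjoint (e4W r h x i) (e4W r h x i') := by
    intro i _ i' _ hne
    rw [Finset.disjoint_left]
    intro c hc hc'
    rw [e4_mem, abs_le] at hc hc'
    obtain ⟨_, ⟨h1, h2⟩, _⟩ := hc
    obtain ⟨_, ⟨h3, h4⟩, _⟩ := hc'
    rcases lt_or_gt_of_ne hne with h5 | h5
    · have h6 : i + 1 ≤ i' := by omega
      nlinarith
    · have h6 : i' + 1 ≤ i := by omega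
      nlinarith
  have hsub : (insert (0 : ℤ) (pm m)).biUnion (e4W r h x) ⊆ (pm h).filter (fun c =>
      ((r : ℤ) * c) % (x : ℤ) ∈ (pm h).image (fun c => c % (x : ℤ))) := by
    intro c hc
    rw [Finset.mem_biUnion] at hc
    obtain ⟨i, _, hc⟩ := hc
    rw [e4_mem, abs_le] at hc
    obtain ⟨h1, ⟨h2, h3⟩, h4⟩ := hc
    rw [Finset.mem_filter, Finset.mem_image]
    refine ⟨h1, (r : ℤ) * c - i * x, ?_, ?_⟩
    · rw [mem_pm]
      exact ⟨sub_ne_zero.2 h4, h2, h3⟩
    · exact Int.sub_mul_emod_self_right _ _ _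
  refine le_trans ?_ (Finset.card_le_card hsub)
  rw [Finset.card_biUnion hdis, Finset.sum_insert h0m]
  have h1 := e4_zero r h x k hr hh
  have h2 : (pm m).card • (2 * k - 1) ≤ ∑ i ∈ pm m, (e4W r h x i).card :=
    Finset.card_nsmul_le_sum _ _ _ fun i hi => e4_win r h x k hr hk hh hx i hi
  rw [d3_card, smul_eq_mul] at h2
  omega

end Pool.Agent.H73F
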