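import Mathlib

set_option autoImplicit false

namespace Pool.Agent.H73F

theorem e5_log (a : ℕ) (ha : 1 ≤ a) (b : ℕ) (hab : a ≤ b) :
    Real.log ((b : ℝ) / a) + 1 / b ≤ ∑ x ∈ Finset.Ioc a b, (1 : ℝ) / x + 1 / a := by
  have ha0 : (0 : ℝ) < a := by exact_mod_cast ha
  induction b, hab using Nat.le_induction with
  | base =>
    rw [div_self ha0.ne', Real.log_one, Finset.Ioc_self, Finset.sum_empty]
  | succ b hab ih =>
    have hb0 : (0 : ℝ) < b := lt_of_lt_of_le ha0 (by exact_mod_cast hab)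
    rw [Finset.sum_Ioc_succ_top hab]
    push_cast
    have h1 : Real.log (((b : ℝ) + 1) / a) = Real.log ((b : ℝ) / a) + Real.log (((b : ℝ) + 1) / b) := by
      rw [← Real.log_mul (by positivity) (by positivity)]
      congr 1
      field_simp
    have h2 : Real.log (((b : ℝ) + 1) / b) ≤ 1 / b := by
      have h3 := Real.log_le_sub_one_of_pos (show 0 < ((b : ℝ) + 1) / b by positivity)
      have h4 : ((b : ℝ) + 1) / b - 1 = 1 / b := by
        field_simp
        ring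
      linarith
    rw [h1]
    linarith

theorem e5_div (M x : ℕ) (hx : 1 ≤ x) : (M : ℝ) * (1 / x) - 1 ≤ ((M / x : ℕ) : ℝ) := by
  have hx0 : (0 : ℝ) < x := by exact_mod_cast hx
  have h1 : M < x * (M / x + 1) := by
    have h2 := Nat.div_add_mod M x
    have h3 := Nat.mod_lt M hx
    rw [mul_add, mul_one]
    omega
  have h2 : (M : ℝ) < x * (((M / x : ℕ) : ℝ) + 1) := by exact_mod_cast h1
  have h3 : (M : ℝ) * (1 / x) < ((M / x : ℕ) : ℝ) + 1 := by
    rw [mul_one_div, div_lt_iff₀ hx0]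
    linarith
  linarith

/-- CHUNK E5 (S/M).  Lower bound for a sum of integer parts.
Proof.  `(M / x : ℕ) ≥ M / x - 1` for every `x`, so the sum is at least
`M ∑_{a < x ≤ b} 1 / x - (b - a)`, and
`∑_{a < x ≤ b} 1 / x = ∑_{a ≤ x < b} 1 / x - 1 / a + 1 / b ≥ log (b / a) - 1 / a`, because
`1 / x ≥ log ((x + 1) / x)` (induction on `b` for the inequality
`∑_{a < x ≤ b} 1 / x + 1 / a - 1 / b ≥ log (b / a)`, with
`Real.log_le_sub_one_of_pos`: `log ((b + 1) / b) ≤ 1 / b`). -/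
theorem e5_sum_div (M a b : ℕ) (ha : 1 ≤ a) (hab : a ≤ b) :
    (M : ℝ) * (Real.log ((b : ℝ) / a) - 1 / a) - ((b : ℝ) - a) ≤
      ((∑ x ∈ Finset.Ioc a b, M / x : ℕ) : ℝ) := by
  have h1 := e5_log a ha b hab
  have hb1 : 1 ≤ b := ha.trans hab
  have hb0 : (0 : ℝ) < 1 / b := by
    have : (0 : ℝ) < b := by exact_mod_cast hb1
    positivity
  have h2 : ∑ x ∈ Finset.Ioc a b, ((M : ℝ) * (1 / x) - 1) ≤ ((∑ x ∈ Finset.Ioc a b, M / x : ℕ) : ℝ) := by
    rw [Nat.cast_sum]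
    refine Finset.sum_le_sum fun x hx => ?_
    exact e5_div M x (by rw [Finset.mem_Ioc] at hx; omega)
  rw [Finset.sum_sub_distrib, ← Finset.mul_sum, Finset.sum_const, Nat.card_Ioc, nsmul_eq_mul, mul_one,
    Nat.cast_sub hab] at h2
  have h3 : (M : ℝ) * (Real.log ((b : ℝ) / a) - 1 / a) ≤ M * ∑ x ∈ Finset.Ioc a b, (1 : ℝ) / x := by
    apply mul_le_mul_of_nonneg_left _ (Nat.cast_nonneg M)
    linarith
  linarith

end Pool.Agent.H73F
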