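import Mathlib
import Pool.Agent.Lib.H73F.E2
import Pool.Agent.Lib.H73F.E4
import Pool.Agent.Lib.H73F.E5

set_option autoImplicit false

namespace Pool.Agent.H73F

/-- CHUNK G2 (M).  Upper bound for the number of labels `B`: `h = r k`, `2 h ≤ T`.
Proof.  Split `Icc 1 T` into `Icc 1 (2 h)`, where `(resB r h x).card ≤ x` (`e2_card_le`), total
`h (2 h + 1)`, and `Ioc (2 h) T`, where by `e3_card_add` and `e4_coincidences`
`(resB r h x).card ≤ 4 h - 2 k - 2 (2 k - 1) ((r - 1) h / x)`; sum, and use `e5_sum_div` with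
`M = (r - 1) h`, `a = 2 h`, `b = T`. -/
theorem g2_sum (r h T k : ℕ) (hr : 2 ≤ r) (hk : 1 ≤ k) (hh : h = r * k) (hT : 2 * h ≤ T) :
    ((∑ x ∈ Finset.Icc 1 T, (resB r h x).card : ℕ) : ℝ) ≤
      (h : ℝ) * (2 * h + 1) + ((T : ℝ) - 2 * h) * (4 * h - 2 * k)
        - 2 * (2 * (k : ℝ) - 1) * (((r : ℝ) - 1) * h *
          (Real.log ((T : ℝ) / (2 * h)) - 1 / (2 * h)) - ((T : ℝ) - 2 * h)) := by
  have hh1 : 1 ≤ h := by
    rw [hh]
    exact Nat.mul_pos (by omega) hk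
  have hIcc : Finset.Icc 1 T = Finset.Ioc 0 T := by
    ext x
    simp only [Finset.mem_Icc, Finset.mem_Ioc]
    omega
  have hsplit : ∑ x ∈ Finset.Icc 1 T, (resB r h x).card =
      ∑ x ∈ Finset.Ioc 0 (2 * h), (resB r h x).card + ∑ x ∈ Finset.Ioc (2 * h) T, (resB r h x).card := by
    rw [hIcc, Finset.sum_Ioc_consecutive _ (by omega) hT]
  have h1 : ∑ x ∈ Finset.Ioc 0 (2 * h), (resB r h x).card ≤ h * (2 * h + 1) := by
    have h2 : ∑ x ∈ Finset.Ioc 0 (2 * h), (resB r h x).card ≤ ∑ x ∈ Finset.Ioc 0 (2 * h), x := by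
      refine Finset.sum_le_sum fun x hx => ?_
      exact e2_card_le r h x (by rw [Finset.mem_Ioc] at hx; omega)
    have h3 : ∀ n : ℕ, 2 * ∑ x ∈ Finset.Ioc 0 n, x = n * (n + 1) := by
      intro n
      induction n with
      | zero => simp
      | succ n ih =>
        rw [Finset.sum_Ioc_succ_top (by omega), mul_add, ih]
        ring
    have h4 := h3 (2 * h)
    have h5 : 2 * h * (2 * h + 1) = 2 * (h * (2 * h + 1)) := by ring
    omega
  have h1' : ((∑ x ∈ Finset.Ioc 0 (2 * h), (resB r h x).card : ℕ) : ℝ) ≤ (h : ℝ) * (2 * h + 1) := by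
    exact_mod_cast h1
  have hk' : ((2 * k - 1 : ℕ) : ℝ) = 2 * (k : ℝ) - 1 := by
    rw [Nat.cast_sub (by omega)]
    push_cast
    ring
  have hk0 : (0 : ℝ) ≤ 2 * (k : ℝ) - 1 := by
    rw [← hk']
    exact Nat.cast_nonneg _
  have h2 : ∀ x ∈ Finset.Ioc (2 * h) T, ((resB r h x).card : ℝ) ≤
      (4 * (h : ℝ) - 2 * k) - 2 * (2 * (k : ℝ) - 1) * (((r - 1) * h / x : ℕ) : ℝ) := by
    intro x hx
    rw [Finset.mem_Ioc] at hx
    have h3 := e3_card_add r h x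
    have h4 := e4_coincidences r h x k hr hk hh hx.1
    have h5 : (resB r h x).card + (2 * k + 2 * ((r - 1) * h / x) * (2 * k - 1)) ≤ 4 * h := by omega
    have h6 : ((resB r h x).card : ℝ) + (2 * (k : ℝ) + 2 * (((r - 1) * h / x : ℕ) : ℝ) * ((2 * k - 1 : ℕ) : ℝ)) ≤
        4 * (h : ℝ) := by exact_mod_cast h5
    rw [hk'] at h6
    linarith
  have h3 := Finset.sum_le_sum h2
  rw [Finset.sum_sub_distrib, Finset.sum_const, Nat.card_Ioc, nsmul_eq_mul, ← Finset.mul_sum,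
    Nat.cast_sub hT] at h3
  have h4 := e5_sum_div ((r - 1) * h) (2 * h) T (by omega) hT
  have hM : (((r - 1) * h : ℕ) : ℝ) = ((r : ℝ) - 1) * h := by
    rw [Nat.cast_mul, Nat.cast_sub (by omega)]
    push_cast
    ring
  rw [hM] at h4
  push_cast at h4
  rw [hsplit, Nat.cast_add]
  have h5 : 2 * (2 * (k : ℝ) - 1) * (((r : ℝ) - 1) * h *
          (Real.log ((T : ℝ) / (2 * h)) - 1 / (2 * h)) - ((T : ℝ) - 2 * h)) ≤
      2 * (2 * (k : ℝ) - 1) * ∑ x ∈ Finset.Ioc (2 * h) T, (((r - 1) * h / x : ℕ) : ℝ) := by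
    apply mul_le_mul_of_nonneg_left h4
    linarith
  have h6 : ((∑ x ∈ Finset.Ioc (2 * h) T, (resB r h x).card : ℕ) : ℝ) =
      ∑ x ∈ Finset.Ioc (2 * h) T, ((resB r h x).card : ℝ) := by
    push_cast
    rfl
  rw [h6]
  push_cast at h3
  linarith

end Pool.Agent.H73F
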