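import Mathlib
import Pool.Agent.Lib.H73F.G1
import Pool.Agent.Lib.H73F.G2
import Pool.Agent.Lib.H73F.F1
import Pool.Agent.Lib.H73F.F2

set_option autoImplicit false

namespace Pool.Agent.H73F

open Pool.Agent.H78.Farbman

/-- CHUNK G3 (M).  The theorem for `r ≥ 4`.
Proof.  By contradiction: let `l` be given by `f2_choice` (with `f1_main_pos`), and
`k = 2 l`, `h = r k`, `T = r * (r * l)` (so `T = r h / 2`, `2 h ≤ T` because `r ≥ 4`,
`h / r = k`, `T / r = r l = h / 2`).  Then `g1_rect` reads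
`2 T (2 h - 2 k) + (2 T - 2 (T / r)) (2 h) = 8 T (h - k) ≤ s h (h + 1) + 2 ∑ ...`
(`T / r * h = T * k`), `g2_sum` bounds the sum with `T / (2 h) = r / 4`, and `f2_choice` gives a
contradiction. -/
theorem g3_main (s r : ℕ) (hs : 1 ≤ s) (hr : 4 ≤ r) (h : 2 * Real.exp ((s : ℝ) / 8) ≤ (r : ℝ)) :
    IsRelationNumber ((s : ℚ) / (r : ℚ)) := by
  by_contra hq
  obtain ⟨l, hl, hfin⟩ := f2_choice s r hr (f1_main_pos s r hr h)
  have hr1 : 1 ≤ r := by omega
  have hr' : (4 : ℝ) ≤ r := by exact_mod_cast hr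
  have hl' : (1 : ℝ) ≤ l := by exact_mod_cast hl
  set k : ℕ := 2 * l with hk
  set hh : ℕ := r * k with hhh
  set T : ℕ := r * (r * l) with hT
  have hT2 : 2 * hh ≤ T := by
    rw [hhh, hk, hT]
    calc 2 * (r * (2 * l)) = r * (4 * l) := by ring
      _ ≤ r * (r * l) := Nat.mul_le_mul_left _ (Nat.mul_le_mul_right _ hr)
  have e1 : hh / r = k := by
    rw [hhh]
    exact Nat.mul_div_cancel_left k (by omega)
  have e2 : T / r = r * l := by
    rw [hT]
    exact Nat.mul_div_cancel_left _ (by omega)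
  have h1 := g1_rect s r hh T hs (by omega) hq
  rw [e1, e2] at h1
  have h2 := g2_sum r hh T k (by omega) (by omega) rfl hT2
  have kr : (k : ℝ) = 2 * l := by
    rw [hk]
    push_cast
    ring
  have hr2 : (hh : ℝ) = r * k := by
    rw [hhh]
    push_cast
    ring
  have Tr : (T : ℝ) = r * hh / 2 := by
    rw [hT, hr2, kr]
    push_cast
    ring
  have hkh : 2 * k ≤ 2 * hh := by
    rw [hhh]
    have : 1 * k ≤ r * k := Nat.mul_le_mul_right _ hr1
    omega
  have hlT : 2 * (r * l) ≤ 2 * T := by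
    rw [hT]
    have : 1 * (r * l) ≤ r * (r * l) := Nat.mul_le_mul_right _ hr1
    omega
  have h3 : ((2 * T * (2 * hh - 2 * k) + (2 * T - 2 * (r * l)) * (2 * hh) : ℕ) : ℝ) ≤
      ((s * (hh * (hh + 1)) + 2 * ∑ x ∈ Finset.Icc 1 T, (resB r hh x).card : ℕ) : ℝ) := by
    exact_mod_cast h1
  have c1 : ((2 * hh - 2 * k : ℕ) : ℝ) = 2 * hh - 2 * k := by
    rw [Nat.cast_sub hkh]
    push_cast
    ring
  have c2 : ((2 * T - 2 * (r * l) : ℕ) : ℝ) = 2 * T - 2 * (r * l) := by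
    rw [Nat.cast_sub hlT]
    push_cast
    ring
  have c3 : ((2 * T * (2 * hh - 2 * k) + (2 * T - 2 * (r * l)) * (2 * hh) : ℕ) : ℝ) =
      2 * T * (2 * hh - 2 * k) + (2 * T - 2 * (r * l)) * (2 * hh) := by
    rw [← c1, ← c2]
    push_cast
    ring
  rw [c3] at h3
  have h0 : (0 : ℝ) < hh := by
    rw [hr2, kr]
    positivity
  have hTq : (T : ℝ) / (2 * hh) = r / 4 := by
    rw [Tr]
    field_simp
    norm_num
  rw [hTq] at h2
  have h4 := hfin k hh T _ kr hr2 Tr rfl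
  have h5 : (8 : ℝ) * T * (hh - k) = 2 * T * (2 * hh - 2 * k) + (2 * T - 2 * (r * l)) * (2 * hh) := by
    rw [Tr, hr2, kr]
    ring
  push_cast at h3 h2
  rw [← h5] at h3
  have h6 : ((hh : ℝ) * (2 * hh + 1) + (T - 2 * hh) * (4 * hh - 2 * k)
        - 2 * (2 * k - 1) * ((r - 1) * hh * (Real.log ((r : ℝ) / 4) - 1 / (2 * hh)) - (T - 2 * hh))) ≥
      ∑ x ∈ Finset.Icc 1 T, ((resB r hh x).card : ℝ) := h2
  linarith

end Pool.Agent.H73F
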