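import Mathlib
import Pool.Agent.Lib.H73F.G3
import Pool.Agent.H78.Farbman.Diag

set_option autoImplicit false

namespace Pool.Agent.H73F

open Pool.Agent.H78.Farbman

/-- The main theorem: for every positive integer `s` and every integer `r ≥ 2 exp (s / 8)` the
rational numbers `s / r` and `- s / r` are points of non-freeness. -/
theorem h1_main (s r : ℕ) (hs : 1 ≤ s) (h : 2 * Real.exp ((s : ℝ) / 8) ≤ (r : ℝ)) :
    IsRelationNumber ((s : ℚ) / (r : ℚ)) ∧ IsRelationNumber (-((s : ℚ) / (r : ℚ))) := by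
  have key : IsRelationNumber ((s : ℚ) / (r : ℚ)) := by
    by_cases hr : 4 ≤ r
    · exact g3_main s r hs hr h
    · have hs' : (1 : ℝ) ≤ s := by exact_mod_cast hs
      have h1 : (s : ℝ) / 8 + 1 ≤ Real.exp ((s : ℝ) / 8) := Real.add_one_le_exp _
      have h2 : (2 : ℝ) < r := by nlinarith
      have h3 : 2 < r := by exact_mod_cast h2
      have h4 : r = 3 := by omega
      subst h4
      have h5 : (s : ℝ) ≤ 4 := by push_cast at h; nlinarith
      have h6 : s ≤ 4 := by exact_mod_cast h5
      have e2 : Real.exp ((2 * s : ℕ) / 8 : ℝ) = Real.exp ((s : ℝ) / 8) * Real.exp ((s : ℝ) / 8) := by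
        rw [← Real.exp_add]; congr 1; push_cast; ring
      have e3 : Real.exp ((s : ℝ) / 8) ≤ 3 / 2 := by push_cast at h; linarith
      have e0 : 0 < Real.exp ((s : ℝ) / 8) := Real.exp_pos _
      have h7 := g3_main (2 * s) 6 (by omega) (by omega) (by
        rw [e2]; push_cast; nlinarith)
      have h8 : (((2 * s : ℕ) : ℚ) / ((6 : ℕ) : ℚ)) = ((s : ℚ) / ((3 : ℕ) : ℚ)) := by
        push_cast; ring
      rw [← h8]; exact h7
  exact ⟨key, key.neg⟩

end Pool.Agent.H73F
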