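import Mathlib
import Pool.Agent.Lib.H73F.H1
import Pool.Agent.Lib.H73F.J2

set_option autoImplicit false

namespace Pool.Agent.H73F

open Pool.Agent.H78.Farbman

theorem bound_spec (s : ℕ) (hs : 1 ≤ s) (hs' : s ≤ 34) :
    2 * Real.exp ((s : ℝ) / 8) ≤ (bound s : ℝ) := by
  have h := List.all_eq_true.mp bound_all s (by simp; omega)
  have h1 : 2718281829 ^ s * 256 ≤ bound s ^ 8 * 1000000000 ^ s := by
    have h0 : (s == 0) = false := by simp; omega
    rw [h0, Bool.false_or] at h
    exact of_decide_eq_true h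
  have h2 : (2718281829 : ℝ) ^ s * 256 ≤ (bound s : ℝ) ^ 8 * 1000000000 ^ s := by
    exact_mod_cast h1
  have h3 : Real.exp 1 ≤ 2718281829 / 1000000000 := by
    have := Real.exp_one_lt_d9
    norm_num at this ⊢
    linarith
  have h4 : Real.exp ((s : ℝ) / 8) ^ 8 = Real.exp 1 ^ s := by
    rw [← Real.exp_nat_mul, ← Real.exp_nat_mul]
    congr 1
    push_cast
    ring
  have h5 : (2 * Real.exp ((s : ℝ) / 8)) ^ 8 ≤ (bound s : ℝ) ^ 8 := by
    rw [mul_pow, h4]
    have h6 : Real.exp 1 ^ s ≤ (2718281829 / 1000000000) ^ s :=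
      pow_le_pow_left₀ (Real.exp_pos 1).le h3 s
    rw [div_pow] at h6
    have h7 : (0 : ℝ) < 1000000000 ^ s := by positivity
    rw [le_div_iff₀ h7] at h6
    have h8 : (2 ^ 8 * Real.exp 1 ^ s) * 1000000000 ^ s ≤ (bound s : ℝ) ^ 8 * 1000000000 ^ s := by
      nlinarith
    exact le_of_mul_le_mul_right h8 h7
  exact le_of_pow_le_pow_left₀ (by norm_num) (by positivity) h5

theorem bound_le (s : ℕ) (hs' : s ≤ 34) : bound s ≤ 141 := by
  have h := List.all_eq_true.mp bound_lt s (by simp; omega)
  exact of_decide_eq_true h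

/-- Coprime `s`, `r` with `1 ≤ s ≤ 34` and `s < 4 r`. -/
theorem small_nat (s r : ℕ) (hs : 1 ≤ s) (hs' : s ≤ 34) (hc : Nat.Coprime s r)
    (hq : s < 4 * r) : IsRelationNumber ((s : ℚ) / (r : ℚ)) := by
  by_cases hb : bound s ≤ r
  · refine (h1_main s r hs ((bound_spec s hs hs').trans ?_)).1
    exact_mod_cast hb
  · have hrb : r < 141 := lt_of_lt_of_le (not_le.mp hb) (bound_le s hs')
    have h := List.all_eq_true.mp (List.all_eq_true.mp chk_all s (by simp; omega)) r
      (by simp; omega)
    have e1 : (s == 0) = false := by simp; omega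
    have e2 : decide (bound s ≤ r) = false := by simp; omega
    have e3 : (Nat.gcd s r != 1) = false := by
      have : Nat.gcd s r = 1 := hc
      simp [this]
    have e4 : decide (4 * r ≤ s) = false := by simp; omega
    rw [e1, e2, e3, e4] at h
    simp only [Bool.false_or] at h
    unfold chk at h
    simp only [Bool.and_eq_true, beq_iff_eq, List.all_eq_true, bne_iff_ne, ne_eq] at h
    obtain ⟨⟨ha, hbb⟩, hcc⟩ := h
    exact relation_of_run s r (by omega) (look s r) ha hbb hcc

/-- Every rational number `q` with `|q| < 4` and numerator of absolute value at most `34` is a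
point of non-freeness. -/
theorem small_num (q : ℚ) (h1 : -4 < q) (h2 : q < 4) (hn : |q.num| ≤ 34) :
    IsRelationNumber q := by
  have key : ∀ p : ℚ, 0 < p → p < 4 → p.num ≤ 34 → IsRelationNumber p := by
    intro p hp hp4 hpn
    have hnum : 0 < p.num := Rat.num_pos.mpr hp
    obtain ⟨s, hs⟩ : ∃ s : ℕ, p.num = s := ⟨p.num.toNat, by omega⟩
    have hpe : p = (s : ℚ) / (p.den : ℚ) := by
      conv_lhs => rw [← Rat.num_div_den p, hs]
      rw [Int.cast_natCast]
    rw [hpe]
    refine small_nat s p.den (by omega) (by omega) ?_ ?_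
    · have := p.reduced
      rw [hs] at this
      simpa using this
    · have hd : (0 : ℚ) < p.den := by exact_mod_cast p.den_pos
      rw [hpe, div_lt_iff₀ hd] at hp4
      exact_mod_cast hp4
  rcases lt_trichotomy q 0 with h | h | h
  · have h3 := key (-q) (by linarith) (by linarith) (by
      have h5 := (abs_le.mp hn).1
      have h6 : (-q).num = -q.num := Rat.neg_num q
      omega)
    have h4 := h3.neg
    rwa [neg_neg] at h4
  · rw [h]; exact isRelationNumber_zero
  · exact key q h h2 ((le_abs_self _).trans hn)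

/-- Every integer numerator and every denominator at least `2 exp (|s| / 8)`. -/
theorem large_den (s : ℤ) (r : ℕ) (h : 2 * Real.exp (|(s : ℝ)| / 8) ≤ (r : ℝ)) :
    IsRelationNumber ((s : ℚ) / (r : ℚ)) := by
  rcases lt_trichotomy s 0 with hs | hs | hs
  · obtain ⟨n, rfl⟩ : ∃ n : ℕ, s = -(n : ℤ) := ⟨s.natAbs, by omega⟩
    have hn : 1 ≤ n := by omega
    have e : |((-(n : ℤ) : ℤ) : ℝ)| = (n : ℝ) := by
      push_cast
      rw [abs_neg, abs_of_nonneg (by positivity)]
    rw [e] at h
    have := (h1_main n r hn h).2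
    have e2 : (((-(n : ℤ) : ℤ) : ℚ) / (r : ℚ)) = -((n : ℚ) / (r : ℚ)) := by
      push_cast; ring
    rw [e2]; exact this
  · subst hs
    simp only [Int.cast_zero, zero_div]
    exact isRelationNumber_zero
  · obtain ⟨n, rfl⟩ : ∃ n : ℕ, s = (n : ℤ) := ⟨s.natAbs, by omega⟩
    have hn : 1 ≤ n := by omega
    have e : |(((n : ℤ) : ℤ) : ℝ)| = (n : ℝ) := by
      push_cast
      rw [abs_of_nonneg (by positivity)]
    rw [e] at h
    rw [Int.cast_natCast]
    exact (h1_main n r hn h).1

end Pool.Agent.H73F
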