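import Mathlib
import Pool.Agent.Lib.H73F.C4

set_option autoImplicit false

namespace Pool.Agent.H73F

open Matrix Pool.Agent.H78.Farbman

/-- The reduced word of `x` begins with the letter `c` (or its inverse). -/
def Starts (c : Fin 2) (x : FreeGroup (Fin 2)) : Prop := ∃ e ∈ x.toWord.head?, e.1 = c

theorem starts_ne {c d : Fin 2} (hcd : c ≠ d) {x : FreeGroup (Fin 2)} (h : Starts c x) :
    ¬ Starts d x := by
  rintro ⟨e, he, hd⟩
  obtain ⟨e', he', hc⟩ := h
  rw [Option.mem_def] at he he'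
  rw [he] at he'
  cases he'
  exact hcd (hc.symm.trans hd)

theorem not_starts_one (c : Fin 2) : ¬ Starts c 1 := by
  rintro ⟨e, he, -⟩
  simp at he

theorem starts_rep (n : ℕ) (hn : n ≠ 0) (b : Bool) (c : Fin 2) (x : FreeGroup (Fin 2))
    (hx : ¬ Starts c x) : Starts c (FreeGroup.mk (List.replicate n (c, b)) * x) := by
  have h0 : ∀ e ∈ x.toWord.head?, e.1 ≠ c := fun e he hec => hx ⟨e, he, hec⟩
  have h1 : FreeGroup.mk (List.replicate n (c, b)) * x =
      FreeGroup.mk (List.replicate n (c, b) ++ x.toWord) := by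
    conv_lhs => rw [← FreeGroup.mk_toWord (x := x)]
    rw [FreeGroup.mul_mk]
  obtain ⟨k, rfl⟩ := Nat.exists_eq_succ_of_ne_zero hn
  refine ⟨(c, b), ?_, rfl⟩
  rw [h1, FreeGroup.toWord_mk, (a1_red _ b c x.toWord FreeGroup.isReduced_toWord h0).reduce_eq]
  simp [List.replicate_succ]

theorem starts_zpow_mul (c : Fin 2) (x : FreeGroup (Fin 2)) (hx : ¬ Starts c x) (m : ℤ)
    (hm : m ≠ 0) : Starts c (FreeGroup.of c ^ m * x) := by
  rcases lt_or_gt_of_ne hm with h | h
  · obtain ⟨n, rfl⟩ : ∃ n : ℕ, m = -(n : ℤ) := ⟨(-m).toNat, by omega⟩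
    rw [_root_.zpow_neg, _root_.zpow_natCast, a1_pow']
    exact starts_rep n (by omega) false c x hx
  · obtain ⟨n, rfl⟩ : ∃ n : ℕ, m = (n : ℤ) := ⟨m.toNat, by omega⟩
    rw [_root_.zpow_natCast, a1_pow]
    exact starts_rep n (by omega) true c x hx

/-- The alternating word with the exponents of the list `l`; the first element of the list is the
exponent of the rightmost letter `c`. -/
def wd : List ℤ → Fin 2 → FreeGroup (Fin 2)
  | [], _ => 1
  | m :: l, c => wd l (c + 1) * FreeGroup.of c ^ m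

theorem starts_wd (l : List ℤ) : ∀ (c : Fin 2) (x : FreeGroup (Fin 2)), l.length % 2 = 1 →
    (∀ m ∈ l, m ≠ 0) → ¬ Starts c x → Starts c (wd l c * x) := by
  induction l using List.twoStepInduction with
  | nil => intro c x h; simp at h
  | singleton a =>
    intro c x _ h0 hx
    simp only [wd, one_mul]
    exact starts_zpow_mul c x hx a (h0 a (by simp))
  | cons_cons a b l ih _ =>
    intro c x h h0 hx
    have e : wd (a :: b :: l) c * x =
        wd l c * (FreeGroup.of (c + 1) ^ b * (FreeGroup.of c ^ a * x)) := by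
      have hc : c + 1 + 1 = c := by fin_cases c <;> rfl
      simp only [wd, hc, mul_assoc]
    rw [e]
    have h1 : Starts c (FreeGroup.of c ^ a * x) := starts_zpow_mul c x hx a (h0 a (by simp))
    have hne : c ≠ c + 1 := by fin_cases c <;> decide
    have h2 : Starts (c + 1) (FreeGroup.of (c + 1) ^ b * (FreeGroup.of c ^ a * x)) :=
      starts_zpow_mul _ _ (starts_ne hne h1) b (h0 b (by simp))
    refine ih c _ ?_ ?_ (starts_ne hne.symm h2)
    · simp only [List.length_cons] at h; omega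
    · intro m hm; exact h0 m (by simp [hm])

/-- One step on integral vectors (scaled by `r` at each power of `[[1, s/r], [0, 1]]`). -/
def step (s r : ℤ) (c : Fin 2) (m : ℤ) (v : ℤ × ℤ) : ℤ × ℤ :=
  if c = 0 then (r * v.1 + m * s * v.2, r * v.2) else (v.1, v.2 + m * v.1)

/-- The image of the vector `v` under the word, scaled to be integral. -/
def run (s r : ℤ) : List ℤ → Fin 2 → ℤ × ℤ → ℤ × ℤ
  | [], _, v => v
  | m :: l, c, v => run s r l (c + 1) (step s r c m v)

/-- The number of steps with the letter `0`. -/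
def dep : List ℤ → Fin 2 → ℕ
  | [], _ => 0
  | _ :: l, c => dep l (c + 1) + if c = 0 then 1 else 0

theorem run_eq (s r : ℤ) (hr : r ≠ 0) (l : List ℤ) : ∀ (c : Fin 2) (v : ℤ × ℤ),
    ((run s r l c v).1 : ℚ) = (r : ℚ) ^ dep l c *
      (((FreeGroup.lift ![gA ((s : ℚ) / r), gB]) (wd l c)).1 0 0 * v.1 +
        ((FreeGroup.lift ![gA ((s : ℚ) / r), gB]) (wd l c)).1 0 1 * v.2) ∧
    ((run s r l c v).2 : ℚ) = (r : ℚ) ^ dep l c *
      (((FreeGroup.lift ![gA ((s : ℚ) / r), gB]) (wd l c)).1 1 0 * v.1 +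
        ((FreeGroup.lift ![gA ((s : ℚ) / r), gB]) (wd l c)).1 1 1 * v.2) := by
  have hr' : (r : ℚ) ≠ 0 := by exact_mod_cast hr
  induction l with
  | nil => intro c v; simp [run, dep, wd]
  | cons m l ih =>
    intro c v
    obtain ⟨h1, h2⟩ := ih (c + 1) (step s r c m v)
    have hm : ((FreeGroup.lift ![gA ((s : ℚ) / r), gB]) (wd (m :: l) c)).1 =
        ((FreeGroup.lift ![gA ((s : ℚ) / r), gB]) (wd l (c + 1))).1 *
          ((FreeGroup.lift ![gA ((s : ℚ) / r), gB]) (FreeGroup.of c ^ m)).1 := by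
      simp only [wd, map_mul]
      rfl
    rw [hm]
    simp only [run]
    rw [h1, h2]
    obtain rfl | rfl : c = 0 ∨ c = 1 := by fin_cases c <;> simp
    · rw [c4_powA ((s : ℚ) / r) m]
      simp only [dep, step, if_true, Matrix.mul_apply, Fin.sum_univ_two, Matrix.of_apply,
        Matrix.cons_val', Matrix.cons_val_zero, Matrix.cons_val_one, Matrix.cons_val_fin_one,
        pow_succ]
      push_cast
      generalize (FreeGroup.lift ![gA ((s : ℚ) / r), gB]) (wd l (0 + 1)) = M
      constructor <;> field_simp <;> ring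
    · rw [c4_powB ((s : ℚ) / r) m]
      simp only [dep, step, if_neg (show ¬ ((1 : Fin 2) = 0) by decide), Matrix.mul_apply,
        Fin.sum_univ_two, Matrix.of_apply,
        Matrix.cons_val', Matrix.cons_val_zero, Matrix.cons_val_one, Matrix.cons_val_fin_one,
        add_zero]
      push_cast
      generalize (FreeGroup.lift ![gA ((s : ℚ) / r), gB]) (wd l (1 + 1)) = M
      constructor <;> ring

/-- A closed path from `∞` to `∞` which starts and ends with powers of `[[1, 0], [1, 1]]` gives a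
relation. -/
theorem relation_of_run (s r : ℕ) (hr : 1 ≤ r) (l : List ℤ) (hl : l.length % 2 = 1)
    (h0 : ∀ m ∈ l, m ≠ 0) (hrun : (run s r l 1 (1, 0)).2 = 0) :
    IsRelationNumber ((s : ℚ) / (r : ℚ)) := by
  by_contra hq
  have hinj := c3_injective _ hq
  have hr' : ((r : ℤ) : ℚ) ≠ 0 := by exact_mod_cast (by omega : r ≠ 0)
  set φ := FreeGroup.lift ![gA ((s : ℚ) / (r : ℚ)), gB] with hφ
  set X : ℤ := (run s r l 1 (1, 0)).1 with hX
  set k : ℕ := dep l 1 with hk
  have key := run_eq (s : ℤ) (r : ℤ) (by exact_mod_cast (by omega : r ≠ 0)) l 1 (1, 0)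
  simp only [Int.cast_natCast, ← hφ, hrun, ← hX, ← hk] at key
  obtain ⟨k1, k2⟩ := key
  have hrk : ((r : ℚ)) ^ k ≠ 0 := pow_ne_zero _ (by exact_mod_cast hr')
  have m10 : (φ (wd l 1)).1 1 0 = 0 := by
    simp only [Int.cast_zero, Int.cast_one, mul_one, mul_zero, add_zero] at k2
    rcases mul_eq_zero.mp k2.symm with h | h
    · exact absurd h hrk
    · exact h
  have m00 : (X : ℚ) = (r : ℚ) ^ k * (φ (wd l 1)).1 0 0 := by
    simpa using k1
  have hdet := (φ (wd l 1)).2
  rw [Matrix.det_fin_two, m10, mul_zero, sub_zero] at hdet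
  have hX0 : X ≠ 0 := by
    intro h
    rw [h] at m00
    have : (φ (wd l 1)).1 0 0 = 0 := by
      rcases mul_eq_zero.mp (m00.symm.trans Int.cast_zero) with h | h
      · exact absurd h hrk
      · exact h
    rw [this, zero_mul] at hdet
    exact zero_ne_one hdet
  have heq : φ (wd l 1 * FreeGroup.of 0 ^ (((r : ℤ) ^ k) ^ 2)) =
      φ (FreeGroup.of 0 ^ (X ^ 2) * wd l 1) := by
    apply Subtype.ext
    rw [map_mul, map_mul]
    have e1 := c4_powA ((s : ℚ) / (r : ℚ)) (((r : ℤ) ^ k) ^ 2)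
    have e2 := c4_powA ((s : ℚ) / (r : ℚ)) (X ^ 2)
    rw [← hφ] at e1 e2
    show (φ (wd l 1)).1 * (φ (FreeGroup.of 0 ^ (((r : ℤ) ^ k) ^ 2))).1 =
      (φ (FreeGroup.of 0 ^ (X ^ 2))).1 * (φ (wd l 1)).1
    rw [e1, e2]
    ext i j
    fin_cases i <;> fin_cases j <;>
      simp [Matrix.mul_apply, Fin.sum_univ_two, m10]
    rw [m00]
    have : (φ (wd l 1)).1 0 0 * (φ (wd l 1)).1 1 1 = 1 := hdet
    linear_combination (-((r : ℚ) ^ k) ^ 2 * ((s : ℚ) / r) * (φ (wd l 1)).1 0 0) * this
  have hw := hinj heq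
  have s1 : Starts 1 (wd l 1 * FreeGroup.of 0 ^ (((r : ℤ) ^ k) ^ 2)) := by
    refine starts_wd l 1 _ hl h0 ?_
    have h := starts_zpow_mul 0 1 (not_starts_one 0) (((r : ℤ) ^ k) ^ 2) (by positivity)
    rw [mul_one] at h
    exact starts_ne (by decide) h
  have s2 : Starts 0 (FreeGroup.of 0 ^ (X ^ 2) * wd l 1) := by
    refine starts_zpow_mul 0 _ ?_ _ (by positivity)
    have h := starts_wd l 1 1 hl h0 (not_starts_one 1)
    rw [mul_one] at h
    exact starts_ne (by decide) h
  rw [hw] at s1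
  exact starts_ne (by decide) s2 s1

end Pool.Agent.H73F
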